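import Pool.Agent.TH55.PowB

set_option autoImplicit false

/-!
# Averages of the multipliers of constant conformal structures (helper125)
-/

open MeasureTheory Filter Topology Set
open scoped SchwartzMap ENNReal NNReal

namespace Pool.Agent.X125.BT

open Pool.Agent.TH55.PowA

/-- the Moebius map with zero `w` -/
noncomputable def mb (w z : ℂ) : ℂ := (z - w) / (1 - (starRingEnd ℂ) w * z)

lemma mb_meas : Measurable (fun q : ℂ × ℂ => mb q.1 q.2) := by
  unfold mb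
  fun_prop

lemma den_ne {w z : ℂ} (hw : ‖w‖ < 1) (hz : ‖z‖ ≤ 1) : 1 - (starRingEnd ℂ) w * z ≠ 0 := by
  intro h
  have h1 : (starRingEnd ℂ) w * z = 1 := by linear_combination -h
  have h2 : ‖(starRingEnd ℂ) w * z‖ = 1 := by rw [h1, norm_one]
  rw [norm_mul, RCLike.norm_conj] at h2
  nlinarith [norm_nonneg w, norm_nonneg z]

lemma mb_le {w z : ℂ} (hw : ‖w‖ < 1) (hz : ‖z‖ ≤ 1) : ‖mb w z‖ ≤ 1 := by
  have h0 := den_ne hw hz
  unfold mb
  rw [norm_div, div_le_one (norm_pos_iff.2 h0)]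
  have h1 : ‖z - w‖ ^ 2 ≤ ‖1 - (starRingEnd ℂ) w * z‖ ^ 2 := by
    rw [← Complex.normSq_eq_norm_sq, ← Complex.normSq_eq_norm_sq]
    have hw2 : w.re ^ 2 + w.im ^ 2 < 1 := by
      have := Complex.normSq_eq_norm_sq w
      rw [Complex.normSq_apply] at this
      nlinarith [norm_nonneg w]
    have hz2 : z.re ^ 2 + z.im ^ 2 ≤ 1 := by
      have := Complex.normSq_eq_norm_sq z
      rw [Complex.normSq_apply] at this
      nlinarith [norm_nonneg z]
    simp only [Complex.normSq_apply, Complex.sub_re, Complex.sub_im, Complex.one_re,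
      Complex.one_im, Complex.mul_re, Complex.mul_im, Complex.conj_re, Complex.conj_im]
    nlinarith [mul_nonneg (sub_nonneg.2 hw2.le) (sub_nonneg.2 hz2)]
  exact (sq_le_sq₀ (norm_nonneg _) (norm_nonneg _)).1 h1

lemma mb_eq {w : ℂ} (hw : ‖w‖ < 1) {ξ : ℂ} (h : ξ ≠ 0) (hc : ‖-(starRingEnd ℂ) w‖ < 1) :
    mb w (bs ξ) = bs (Ae (-(starRingEnd ℂ) w) hc ξ) := by
  have h0 := den_ne hw (bs_norm_le ξ)
  rw [bs_Ae _ _ ξ h]
  unfold mb
  have h1 : (1 : ℂ) + -(starRingEnd ℂ) w * bs ξ = 1 - (starRingEnd ℂ) w * bs ξ := by ring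
  rw [h1]
  simp only [map_neg, Complex.conj_conj]
  rw [div_eq_iff h0, add_mul, mul_assoc, div_mul_cancel₀ _ h0]
  ring

lemma T_congr {m m' : ℂ → ℂ} (h : ∀ ξ, ξ ≠ 0 → m ξ = m' ξ) (f : 𝓢(ℂ, ℂ)) (z : ℂ) :
    T m f z = T m' f z := by
  unfold T
  refine integral_congr_ae ?_
  have h0 : ∀ᵐ ξ : ℂ, ξ ≠ 0 := by
    rw [ae_iff]
    simp
  filter_upwards [h0] with ξ hξ
  rw [h ξ hξ]

/-- the function of `w` and of the point -/
noncomputable def FF (f : 𝓢(ℂ, ℂ)) (q : ℂ × ℂ) : ℂ := T (fun ξ => mb q.1 (bs ξ)) f q.2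

lemma FF_meas (f : 𝓢(ℂ, ℂ)) : Measurable (FF f) := by
  unfold FF T
  have h : StronglyMeasurable (fun q : (ℂ × ℂ) × ℂ =>
      Complex.exp (2 * (Real.pi : ℂ) * Complex.I * ((sm q.1.2 q.2 : ℝ) : ℂ)) *
        (mb q.1.1 (bs q.2) * Ft f q.2)) := by
    have h1 : Measurable (fun q : (ℂ × ℂ) × ℂ => mb q.1.1 (bs q.2)) :=
      mb_meas.comp ((measurable_fst.comp measurable_fst).prodMk (bs_meas.comp measurable_snd))
    have h2 : Measurable (fun q : (ℂ × ℂ) × ℂ => Ft f q.2) := by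
      have : Measurable (Ft f) := by
        rw [Ft_fun]; exact (SchwartzMap.continuous _).measurable
      exact this.comp measurable_snd
    have h3 : Measurable (fun q : (ℂ × ℂ) × ℂ =>
        Complex.exp (2 * (Real.pi : ℂ) * Complex.I * ((sm q.1.2 q.2 : ℝ) : ℂ))) := by
      unfold sm
      fun_prop
    exact (h3.mul (h1.mul h2)).stronglyMeasurable
  exact (h.integral_prod_right).measurable

lemma FF_bound {P : ℝ≥0∞} (hP : P ≠ ∞) {K : ℝ≥0∞}
    (hb : ∀ f : 𝓢(ℂ, ℂ), eLpNorm (T bs f) P volume ≤ K * eLpNorm f P volume)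
    {w : ℂ} (hw : ‖w‖ < 1) (f : 𝓢(ℂ, ℂ)) :
    eLpNorm (fun z => FF f (w, z)) P volume ≤ K * eLpNorm f P volume := by
  have hc : ‖-(starRingEnd ℂ) w‖ < 1 := by rwa [norm_neg, RCLike.norm_conj]
  have h1 : (fun z => FF f (w, z)) = T (fun ξ => bs (Ae (-(starRingEnd ℂ) w) hc ξ)) f := by
    funext z
    exact T_congr (fun ξ h => mb_eq hw h hc) f z
  rw [h1]
  exact bound_cmp hP bs hb _ hc f

/-- the averaged multiplier -/
lemma T_avg (ν : Measure ℂ) [IsFiniteMeasure ν] (hν : ∀ᵐ w ∂ν, ‖w‖ < 1) (σ : ℂ → ℂ)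
    (hσ : Measurable σ) (hσ1 : ∀ w, ‖σ w‖ ≤ 1) (f : 𝓢(ℂ, ℂ)) (z : ℂ) :
    T (fun ξ => ∫ w, σ w * mb w (bs ξ) ∂ν) f z = ∫ w, σ w * FF f (w, z) ∂ν := by
  set E : ℂ → ℂ → ℂ := fun ξ w => Complex.exp (2 * (Real.pi : ℂ) * Complex.I *
    ((sm z ξ : ℝ) : ℂ)) * (σ w * mb w (bs ξ) * Ft f ξ) with hE
  have hEm : AEStronglyMeasurable (Function.uncurry E) (volume.prod ν) := by
    have h1 : Measurable (fun q : ℂ × ℂ => mb q.2 (bs q.1)) :=
      mb_meas.comp (measurable_snd.prodMk (bs_meas.comp measurable_fst))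
    have h2 : Measurable (fun q : ℂ × ℂ => Ft f q.1) := by
      have : Measurable (Ft f) := by
        rw [Ft_fun]; exact (SchwartzMap.continuous _).measurable
      exact this.comp measurable_fst
    have h3 : Measurable (fun q : ℂ × ℂ =>
        Complex.exp (2 * (Real.pi : ℂ) * Complex.I * ((sm z q.1 : ℝ) : ℂ))) :=
      (meas_ex z).comp measurable_fst
    exact (h3.mul (((hσ.comp measurable_snd).mul h1).mul h2)).aestronglyMeasurable
  have hEi : Integrable (Function.uncurry E) (volume.prod ν) := by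
    have hg : Integrable (fun q : ℂ × ℂ => ‖Ft f q.1‖ * (1 : ℝ)) (volume.prod ν) :=
      Integrable.mul_prod (Ft_int f).norm (integrable_const (1 : ℝ))
    refine hg.mono' hEm ?_
    have hae : ∀ᵐ q : ℂ × ℂ ∂(volume.prod ν), ‖q.2‖ < 1 :=
      Measure.quasiMeasurePreserving_snd.ae hν
    filter_upwards [hae] with q hq
    simp only [Function.uncurry, hE]
    rw [norm_mul, norm_ex, one_mul, norm_mul, norm_mul]
    have h1 := hσ1 q.2
    have h2 := mb_le hq (bs_norm_le q.1)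
    have h3 : ‖σ q.2‖ * ‖mb q.2 (bs q.1)‖ ≤ 1 := mul_le_one₀ h1 (norm_nonneg _) h2
    nlinarith [norm_nonneg (Ft f q.1)]
  have h1 : T (fun ξ => ∫ w, σ w * mb w (bs ξ) ∂ν) f z = ∫ ξ, ∫ w, E ξ w ∂ν := by
    unfold T
    refine integral_congr_ae (Eventually.of_forall fun ξ => ?_)
    simp only [hE]
    rw [integral_const_mul, integral_mul_const]
  rw [h1, integral_integral_swap hEi]
  refine integral_congr_ae (Eventually.of_forall fun w => ?_)
  simp only [hE, FF, T]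
  rw [← integral_const_mul]
  refine integral_congr_ae (Eventually.of_forall fun ξ => ?_)
  ring

lemma jensen {P : ℝ≥0∞} (hP : 1 ≤ P) (hP' : P ≠ ∞) (ν : Measure ℂ) [IsFiniteMeasure ν]
    (F : ℂ × ℂ → ℂ) (hF : Measurable F) (C : ℝ≥0∞)
    (h : ∀ᵐ w ∂ν, eLpNorm (fun z => F (w, z)) P volume ≤ C) (G : ℂ → ℂ)
    (hG : ∀ z, ‖G z‖ₑ ≤ ∫⁻ w, ‖F (w, z)‖ₑ ∂ν) :
    eLpNorm G P volume ≤ ν univ * C := by
  have hP0 : P ≠ 0 := (zero_lt_one.trans_le hP).ne'
  have hp1 : 1 ≤ P.toReal := by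
    rw [← ENNReal.toReal_one]
    exact (ENNReal.toReal_le_toReal ENNReal.one_ne_top hP').2 hP
  have hp0 : 0 < P.toReal := by linarith
  have h1 : ∀ z, ‖G z‖ₑ ^ P.toReal ≤ ν univ ^ (P.toReal - 1) * ∫⁻ w, ‖F (w, z)‖ₑ ^ P.toReal ∂ν := by
    intro z
    have h2 := eLpNorm_le_eLpNorm_mul_rpow_measure_univ (μ := ν) (f := fun w => F (w, z)) hP
      (hF.comp (measurable_id.prodMk measurable_const)).aestronglyMeasurable
    rw [eLpNorm_one_eq_lintegral_enorm, eLpNorm_eq_lintegral_rpow_enorm_toReal hP0 hP',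
      ENNReal.toReal_one] at h2
    have h3 := ENNReal.rpow_le_rpow ((hG z).trans h2) hp0.le
    refine h3.trans (le_of_eq ?_)
    rw [ENNReal.mul_rpow_of_nonneg _ _ hp0.le, ← ENNReal.rpow_mul, ← ENNReal.rpow_mul,
      one_div_mul_cancel hp0.ne', ENNReal.rpow_one, mul_comm]
    congr 2
    field_simp
  rw [eLpNorm_eq_lintegral_rpow_enorm_toReal hP0 hP']
  have h4 : ∫⁻ z, ‖G z‖ₑ ^ P.toReal ≤ ν univ ^ P.toReal * C ^ P.toReal := by
    calc ∫⁻ z, ‖G z‖ₑ ^ P.toReal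
        ≤ ∫⁻ z, ν univ ^ (P.toReal - 1) * ∫⁻ w, ‖F (w, z)‖ₑ ^ P.toReal ∂ν := lintegral_mono h1
      _ = ν univ ^ (P.toReal - 1) * ∫⁻ z, ∫⁻ w, ‖F (w, z)‖ₑ ^ P.toReal ∂ν := by
          rw [lintegral_const_mul]
          exact (hF.enorm.pow_const _).lintegral_prod_left'
      _ = ν univ ^ (P.toReal - 1) * ∫⁻ w, (∫⁻ z, ‖F (w, z)‖ₑ ^ P.toReal) ∂ν := by
          congr 1
          exact lintegral_lintegral_swap (μ := volume) (ν := ν)
            (f := fun z w => ‖F (w, z)‖ₑ ^ P.toReal)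
            ((hF.enorm.pow_const _).comp measurable_swap).aemeasurable
      _ ≤ ν univ ^ (P.toReal - 1) * ∫⁻ _w, C ^ P.toReal ∂ν := by
          refine mul_le_mul' le_rfl (lintegral_mono_ae ?_)
          filter_upwards [h] with w hw
          rw [eLpNorm_eq_lintegral_rpow_enorm_toReal hP0 hP'] at hw
          have := ENNReal.rpow_le_rpow hw hp0.le
          rwa [← ENNReal.rpow_mul, one_div_mul_cancel hp0.ne', ENNReal.rpow_one] at this
      _ = ν univ ^ P.toReal * C ^ P.toReal := by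
          rw [lintegral_const, mul_comm (C ^ _), ← mul_assoc]
          congr 1
          rcases eq_or_ne (ν univ) 0 with h0 | h0
          · rw [h0, mul_zero, ENNReal.zero_rpow_of_pos hp0]
          · conv_lhs => rw [← ENNReal.rpow_one (ν univ)]
            rw [← ENNReal.rpow_mul, one_mul, ← ENNReal.rpow_add _ _ h0 (measure_ne_top _ _)]
            simp
  have h5 := ENNReal.rpow_le_rpow h4 (by positivity : 0 ≤ 1 / P.toReal)
  refine h5.trans (le_of_eq ?_)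
  rw [← ENNReal.mul_rpow_of_nonneg _ _ hp0.le, ← ENNReal.rpow_mul, mul_one_div_cancel hp0.ne',
    ENNReal.rpow_one]

/-- **averages of Beurling transforms** -/
theorem avg_bound' {P : ℝ≥0∞} (hP : 1 ≤ P) (hP' : P ≠ ∞) {K : ℝ≥0∞}
    (hb : ∀ f : 𝓢(ℂ, ℂ), eLpNorm (T bs f) P volume ≤ K * eLpNorm f P volume)
    (ν : Measure ℂ) [IsFiniteMeasure ν] (hν : ∀ᵐ w ∂ν, ‖w‖ < 1) (σ : ℂ → ℂ)
    (hσ : Measurable σ) (hσ1 : ∀ w, ‖σ w‖ ≤ 1) (f : 𝓢(ℂ, ℂ)) :
    eLpNorm (T (fun ξ => ∫ w, σ w * mb w (bs ξ) ∂ν) f) P volume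
      ≤ ν univ * (K * eLpNorm f P volume) := by
  refine jensen hP hP' ν (FF f) (FF_meas f) _ ?_ _ ?_
  · filter_upwards [hν] with w hw
    exact FF_bound hP' hb hw f
  · intro z
    rw [T_avg ν hν σ hσ hσ1 f z]
    refine (enorm_integral_le_lintegral_enorm _).trans (lintegral_mono fun w => ?_)
    rw [enorm_mul]
    have : ‖σ w‖ₑ ≤ 1 := by
      rw [← ofReal_norm, ← ENNReal.ofReal_one]
      exact ENNReal.ofReal_le_ofReal (hσ1 w)
    calc ‖σ w‖ₑ * ‖FF f (w, z)‖ₑ ≤ 1 * ‖FF f (w, z)‖ₑ := by gcongr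
      _ = _ := one_mul _

end Pool.Agent.X125.BT
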