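import Pool.Agent.X125.BT.A
import Pool.Agent.Y282.RB.A3

set_option autoImplicit false

/-!
# Integrals over the disc (helper125)
-/

open MeasureTheory Filter Topology Set
open scoped ENNReal NNReal

namespace Pool.Agent.X125.BT

/-- `π ∫_0^1 t^j (1-t)^s` -/
noncomputable def cc (s j : ℕ) : ℝ := Real.pi * ∫ t in (0 : ℝ)..1, t ^ j * (1 - t) ^ s

lemma ball_iff (w : ℂ) : w ∈ Metric.ball (0 : ℂ) 1 ↔ Complex.normSq w < 1 := by
  rw [mem_ball_zero_iff, Complex.normSq_eq_norm_sq, sq_lt_one_iff₀ (norm_nonneg w)]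

lemma diag (s j : ℕ) : ∫ w in Metric.ball (0 : ℂ) 1,
    (Complex.normSq w ^ j * (1 - Complex.normSq w) ^ s : ℝ) = cc s j := by
  have h := Pool.Agent.Y282.RB.A3.int_normSq (fun t => if t < 1 then t ^ j * (1 - t) ^ s else 0)
  rw [← integral_indicator Metric.isOpen_ball.measurableSet]
  have h1 : (Metric.ball (0 : ℂ) 1).indicator (fun w => (Complex.normSq w ^ j *
      (1 - Complex.normSq w) ^ s : ℝ)) = fun z => if Complex.normSq z < 1 then
        Complex.normSq z ^ j * (1 - Complex.normSq z) ^ s else 0 := by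
    funext z
    by_cases hz : Complex.normSq z < 1
    · rw [indicator_of_mem ((ball_iff z).2 hz), if_pos hz]
    · rw [indicator_of_notMem (fun h => hz ((ball_iff z).1 h)), if_neg hz]
  rw [h1, h, cc]
  congr 1
  rw [intervalIntegral.integral_of_le zero_le_one, integral_Ioc_eq_integral_Ioo,
    ← integral_indicator measurableSet_Ioi, ← integral_indicator measurableSet_Ioo]
  congr 1
  funext t
  by_cases h0 : 0 < t
  · by_cases h2 : t < 1
    · rw [indicator_of_mem (mem_Ioi.2 h0), indicator_of_mem (mem_Ioo.2 ⟨h0, h2⟩), if_pos h2]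
    · rw [indicator_of_mem (mem_Ioi.2 h0), indicator_of_notMem (fun h => h2 h.2), if_neg h2]
  · rw [indicator_of_notMem (show t ∉ Ioi (0 : ℝ) from h0),
      indicator_of_notMem (show t ∉ Ioo (0 : ℝ) 1 from fun h => h0 h.1)]

lemma rot (a b : ℕ) (hab : a ≠ b) (φ : ℝ → ℝ) : ∫ w in Metric.ball (0 : ℂ) 1,
    w ^ a * (starRingEnd ℂ) w ^ b * (φ (Complex.normSq w) : ℂ) = 0 := by
  rw [← integral_indicator Metric.isOpen_ball.measurableSet]
  set g : ℂ → ℂ := (Metric.ball (0 : ℂ) 1).indicator fun w =>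
    w ^ a * (starRingEnd ℂ) w ^ b * (φ (Complex.normSq w) : ℂ) with hg
  have hab' : ((a : ℝ) - b) ≠ 0 := by
    intro h
    exact hab (by exact_mod_cast sub_eq_zero.1 h)
  set u : Circle := Circle.exp (Real.pi / ((a : ℝ) - b)) with hu
  have h1 : ∫ w, g (rotation u w) = ∫ w, g w :=
    (LinearIsometryEquiv.measurePreserving (rotation u)).integral_comp
      (rotation u).toHomeomorph.measurableEmbedding g
  have hu1 : ‖(u : ℂ)‖ = 1 := Circle.norm_coe u
  have h2 : ∀ w, g (rotation u w) = -g w := by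
    intro w
    rw [rotation_apply, hg]
    have hmem : (u : ℂ) * w ∈ Metric.ball (0 : ℂ) 1 ↔ w ∈ Metric.ball (0 : ℂ) 1 := by
      rw [mem_ball_zero_iff, mem_ball_zero_iff, norm_mul, hu1, one_mul]
    by_cases hw : w ∈ Metric.ball (0 : ℂ) 1
    · rw [indicator_of_mem (hmem.2 hw), indicator_of_mem hw]
      have h3 : Complex.normSq ((u : ℂ) * w) = Complex.normSq w := by
        rw [map_mul, Complex.normSq_eq_norm_sq (u : ℂ), hu1]
        ring
      rw [h3, map_mul, mul_pow, mul_pow]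
      have h4 : (u : ℂ) ^ a * (starRingEnd ℂ) (u : ℂ) ^ b = -1 := by
        have e1 : (starRingEnd ℂ) (u : ℂ) = Complex.exp (-(Real.pi / ((a : ℝ) - b) : ℝ) * Complex.I) := by
          rw [hu, Circle.coe_exp, ← Complex.exp_conj]
          congr 1
          rw [map_mul, Complex.conj_ofReal, Complex.conj_I]
          ring
        rw [e1, hu, Circle.coe_exp, ← Complex.exp_nat_mul, ← Complex.exp_nat_mul,
          ← Complex.exp_add]
        have e2 : (a : ℂ) * (((Real.pi / ((a : ℝ) - b) : ℝ) : ℂ) * Complex.I) +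
            (b : ℂ) * (-((Real.pi / ((a : ℝ) - b) : ℝ) : ℂ) * Complex.I) = Real.pi * Complex.I := by
          have e3 : ((a : ℂ) - b) ≠ 0 := by
            have : (((a : ℝ) - b : ℝ) : ℂ) ≠ 0 := by exact_mod_cast hab'
            push_cast at this
            exact this
          push_cast
          field_simp
          ring
        rw [e2, Complex.exp_pi_mul_I]
      linear_combination (w ^ a * (starRingEnd ℂ) w ^ b * (φ (Complex.normSq w) : ℂ)) * h4
    · rw [indicator_of_notMem (fun h => hw (hmem.1 h)), indicator_of_notMem hw, neg_zero]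
  simp only [h2] at h1
  rw [integral_neg] at h1
  have h5 : (2 : ℂ) * ∫ w, g w = 0 := by linear_combination -h1
  exact (mul_eq_zero.1 h5).resolve_left two_ne_zero

lemma int_of_bdd {f : ℂ → ℂ} (hf : Measurable f) (C : ℝ)
    (h : ∀ w ∈ Metric.ball (0 : ℂ) 1, ‖f w‖ ≤ C) : IntegrableOn f (Metric.ball (0 : ℂ) 1) := by
  refine Measure.integrableOn_of_bounded (M := C) measure_ball_lt_top.ne hf.aestronglyMeasurable ?_
  rw [ae_restrict_iff' Metric.isOpen_ball.measurableSet]
  exact Eventually.of_forall h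

lemma conj_meas : Measurable (fun w : ℂ => (starRingEnd ℂ) w) := Complex.continuous_conj.measurable

lemma nsq_meas : Measurable (fun w : ℂ => (Complex.normSq w : ℝ)) :=
  Complex.continuous_normSq.measurable

lemma one_sub_le {w : ℂ} (hw : w ∈ Metric.ball (0 : ℂ) 1) :
    0 ≤ 1 - Complex.normSq w ∧ 1 - Complex.normSq w ≤ 1 := by
  have := (ball_iff w).1 hw
  have h0 := Complex.normSq_nonneg w
  constructor <;> linarith

lemma mono_int (s j l : ℕ) (z : ℂ) : ∫ w in Metric.ball (0 : ℂ) 1,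
    w ^ j * (((1 - Complex.normSq w) ^ s : ℝ) : ℂ) * (z * ((starRingEnd ℂ) w * z) ^ l) =
      if l = j then (cc s j : ℂ) * z ^ (j + 1) else 0 := by
  have h1 : ∀ w : ℂ, w ^ j * (((1 - Complex.normSq w) ^ s : ℝ) : ℂ) *
      (z * ((starRingEnd ℂ) w * z) ^ l) = z ^ (l + 1) * (w ^ j * (starRingEnd ℂ) w ^ l *
        (((1 - Complex.normSq w) ^ s : ℝ) : ℂ)) := by
    intro w
    rw [mul_pow, pow_succ]
    ring
  simp only [h1]
  rw [integral_const_mul]
  split_ifs with h
  · subst h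
    have h2 : ∀ w : ℂ, w ^ l * (starRingEnd ℂ) w ^ l * (((1 - Complex.normSq w) ^ s : ℝ) : ℂ) =
        ((Complex.normSq w ^ l * (1 - Complex.normSq w) ^ s : ℝ) : ℂ) := by
      intro w
      rw [← mul_pow, Complex.mul_conj]
      push_cast
      ring
    simp only [h2]
    rw [integral_complex_ofReal, diag, mul_comm]
  · rw [rot j l (fun h' => h h'.symm) (fun t => (1 - t) ^ s), mul_zero]

lemma cc_zero (j : ℕ) : cc 0 j = Real.pi / (j + 1) := by
  unfold cc
  simp
  ring

lemma mb_split {w z : ℂ} (hw : ‖w‖ < 1) (hz : ‖z‖ = 1) :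
    mb w z = -w + ((1 - Complex.normSq w : ℝ) : ℂ) * (z / (1 - (starRingEnd ℂ) w * z)) := by
  have h0 := den_ne hw hz.le
  unfold mb
  rw [div_eq_iff h0, add_mul, mul_assoc, div_mul_cancel₀ _ h0]
  have h1 : ((Complex.normSq w : ℝ) : ℂ) = w * (starRingEnd ℂ) w := (Complex.mul_conj w).symm
  push_cast
  rw [h1]
  ring

lemma den_lower {w z : ℂ} (hw : ‖w‖ < 1) (hz : ‖z‖ = 1) : 1 - ‖w‖ ≤ ‖1 - (starRingEnd ℂ) w * z‖ := by
  have h := norm_sub_norm_le (1 : ℂ) ((starRingEnd ℂ) w * z)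
  rw [norm_one, norm_mul, RCLike.norm_conj, hz, mul_one] at h
  exact h

/-- the basic integral -/
theorem disc_mb (s j : ℕ) {z : ℂ} (hz : ‖z‖ = 1) :
    ∫ w in Metric.ball (0 : ℂ) 1, w ^ j * (((1 - Complex.normSq w) ^ s : ℝ) : ℂ) * mb w z =
      (cc (s + 1) j : ℂ) * z ^ (j + 1) := by
  have hcm := conj_meas
  have hnm := nsq_meas
  have hmeas : Measurable (fun w : ℂ => (((1 - Complex.normSq w) ^ (s + 1) : ℝ) : ℂ)) :=
    Complex.measurable_ofReal.comp ((measurable_const.sub hnm).pow_const _)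
  have hmeas0 : Measurable (fun w : ℂ => (((1 - Complex.normSq w) ^ s : ℝ) : ℂ)) :=
    Complex.measurable_ofReal.comp ((measurable_const.sub hnm).pow_const _)
  -- splitting
  have hA : ∫ w in Metric.ball (0 : ℂ) 1, w ^ j * (((1 - Complex.normSq w) ^ s : ℝ) : ℂ) * mb w z
      = ∫ w in Metric.ball (0 : ℂ) 1, (w ^ j * (((1 - Complex.normSq w) ^ (s + 1) : ℝ) : ℂ) *
        (z / (1 - (starRingEnd ℂ) w * z)) - w ^ (j + 1) * (starRingEnd ℂ) w ^ 0 *
          (((1 - Complex.normSq w) ^ s : ℝ) : ℂ)) := by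
    refine setIntegral_congr_fun Metric.isOpen_ball.measurableSet fun w hw => ?_
    rw [mem_ball_zero_iff] at hw
    rw [mb_split hw hz]
    push_cast
    ring
  have hi2 : IntegrableOn (fun w : ℂ => w ^ (j + 1) * (starRingEnd ℂ) w ^ 0 *
      (((1 - Complex.normSq w) ^ s : ℝ) : ℂ)) (Metric.ball (0 : ℂ) 1) := by
    refine int_of_bdd (((measurable_id.pow_const _).mul (hcm.pow_const _)).mul hmeas0) 1
      fun w hw => ?_
    have h1 := one_sub_le hw
    rw [mem_ball_zero_iff] at hw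
    rw [pow_zero, mul_one, norm_mul, norm_pow, Complex.norm_real, Real.norm_eq_abs,
      abs_of_nonneg (pow_nonneg h1.1 _)]
    exact mul_le_one₀ (pow_le_one₀ (norm_nonneg _) hw.le) (pow_nonneg h1.1 _)
      (pow_le_one₀ h1.1 h1.2)
  have hbd : ∀ (L : ℕ) (w : ℂ), w ∈ Metric.ball (0 : ℂ) 1 →
      ‖w ^ j * (((1 - Complex.normSq w) ^ (s + 1) : ℝ) : ℂ) *
        (z * ((starRingEnd ℂ) w * z) ^ L / (1 - (starRingEnd ℂ) w * z))‖ ≤ 2 * ‖w‖ ^ L := by
    intro L w hw
    have h1 := one_sub_le hw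
    rw [mem_ball_zero_iff] at hw
    have h2 := den_lower hw hz
    have h3 : 0 < 1 - ‖w‖ := by linarith
    have h4 : (1 - Complex.normSq w) ≤ 2 * (1 - ‖w‖) := by
      rw [Complex.normSq_eq_norm_sq]
      nlinarith [norm_nonneg w]
    have h5 : (1 - Complex.normSq w) ^ (s + 1) ≤ 2 * (1 - ‖w‖) := by
      calc (1 - Complex.normSq w) ^ (s + 1) = (1 - Complex.normSq w) ^ s * (1 - Complex.normSq w) :=
            pow_succ _ _
        _ ≤ 1 * (1 - Complex.normSq w) :=
            mul_le_mul_of_nonneg_right (pow_le_one₀ h1.1 h1.2) h1.1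
        _ ≤ _ := by linarith
    rw [norm_mul, norm_mul, norm_pow, Complex.norm_real, Real.norm_eq_abs,
      abs_of_nonneg (pow_nonneg h1.1 _), norm_div, norm_mul, norm_pow, norm_mul,
      RCLike.norm_conj, hz, mul_one, one_mul]
    have h6 : ‖w‖ ^ L / ‖1 - (starRingEnd ℂ) w * z‖ ≤ ‖w‖ ^ L / (1 - ‖w‖) := by
      gcongr
    have h7 : ‖w‖ ^ j * (1 - Complex.normSq w) ^ (s + 1) ≤ 2 * (1 - ‖w‖) := by
      calc _ ≤ 1 * (1 - Complex.normSq w) ^ (s + 1) :=
            mul_le_mul_of_nonneg_right (pow_le_one₀ (norm_nonneg _) hw.le) (pow_nonneg h1.1 _)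
        _ ≤ _ := by linarith
    calc ‖w‖ ^ j * (1 - Complex.normSq w) ^ (s + 1) * (‖w‖ ^ L / ‖1 - (starRingEnd ℂ) w * z‖)
        ≤ (2 * (1 - ‖w‖)) * (‖w‖ ^ L / (1 - ‖w‖)) := by
          refine mul_le_mul h7 h6 (by positivity) (by positivity)
      _ = 2 * ‖w‖ ^ L := by field_simp
  have hmq : ∀ L : ℕ, Measurable (fun w : ℂ => w ^ j * (((1 - Complex.normSq w) ^ (s + 1) : ℝ) : ℂ) *
        (z * ((starRingEnd ℂ) w * z) ^ L / (1 - (starRingEnd ℂ) w * z))) := by
    intro L
    refine ((measurable_id.pow_const _).mul hmeas).mul ?_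
    refine (measurable_const.mul ((hcm.mul_const z).pow_const L)).div ?_
    exact measurable_const.sub (hcm.mul_const z)
  have hiq : ∀ L : ℕ, IntegrableOn (fun w : ℂ => w ^ j * (((1 - Complex.normSq w) ^ (s + 1) : ℝ) : ℂ) *
        (z * ((starRingEnd ℂ) w * z) ^ L / (1 - (starRingEnd ℂ) w * z))) (Metric.ball (0 : ℂ) 1) := by
    intro L
    refine int_of_bdd (hmq L) 2 fun w hw => (hbd L w hw).trans ?_
    rw [mem_ball_zero_iff] at hw
    have := pow_le_one₀ (n := L) (norm_nonneg w) hw.le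
    linarith
  have hi1 : IntegrableOn (fun w : ℂ => w ^ j * (((1 - Complex.normSq w) ^ (s + 1) : ℝ) : ℂ) *
        (z / (1 - (starRingEnd ℂ) w * z))) (Metric.ball (0 : ℂ) 1) := by
    simpa using hiq 0
  rw [hA, integral_sub hi1 hi2, rot (j + 1) 0 (by omega) (fun t => (1 - t) ^ s), sub_zero]
  -- geometric expansion
  have him : ∀ l : ℕ, IntegrableOn (fun w : ℂ => w ^ j * (((1 - Complex.normSq w) ^ (s + 1) : ℝ) : ℂ) *
      (z * ((starRingEnd ℂ) w * z) ^ l)) (Metric.ball (0 : ℂ) 1) := by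
    intro l
    refine int_of_bdd (((measurable_id.pow_const _).mul hmeas).mul
      (measurable_const.mul ((hcm.mul_const z).pow_const l))) 1 fun w hw => ?_
    have h1 := one_sub_le hw
    rw [mem_ball_zero_iff] at hw
    rw [norm_mul, norm_mul, norm_pow, Complex.norm_real, Real.norm_eq_abs,
      abs_of_nonneg (pow_nonneg h1.1 _), norm_mul, norm_pow, norm_mul,
      RCLike.norm_conj, hz, mul_one, one_mul]
    exact mul_le_one₀ (mul_le_one₀ (pow_le_one₀ (norm_nonneg _) hw.le) (pow_nonneg h1.1 _)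
      (pow_le_one₀ h1.1 h1.2)) (by positivity) (pow_le_one₀ (norm_nonneg _) hw.le)
  have hexp : ∀ L : ℕ, ∫ w in Metric.ball (0 : ℂ) 1,
      w ^ j * (((1 - Complex.normSq w) ^ (s + 1) : ℝ) : ℂ) * (z / (1 - (starRingEnd ℂ) w * z)) =
      ∑ l ∈ Finset.range L, (if l = j then (cc (s + 1) j : ℂ) * z ^ (j + 1) else 0) +
      ∫ w in Metric.ball (0 : ℂ) 1, w ^ j * (((1 - Complex.normSq w) ^ (s + 1) : ℝ) : ℂ) *
        (z * ((starRingEnd ℂ) w * z) ^ L / (1 - (starRingEnd ℂ) w * z)) := by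
    intro L
    rw [← Finset.sum_congr rfl fun l _ => mono_int (s + 1) j l z,
      ← integral_finsetSum _ fun l _ => him l, ← integral_add (integrable_finsetSum _ fun l _ => him l)
        (hiq L)]
    refine setIntegral_congr_fun Metric.isOpen_ball.measurableSet fun w hw => ?_
    rw [mem_ball_zero_iff] at hw
    have h0 := den_ne hw hz.le
    have h1 : (1 : ℂ) / (1 - (starRingEnd ℂ) w * z) = ∑ l ∈ Finset.range L, ((starRingEnd ℂ) w * z) ^ l +
        ((starRingEnd ℂ) w * z) ^ L / (1 - (starRingEnd ℂ) w * z) := by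
      rw [div_eq_iff h0, add_mul, div_mul_cancel₀ _ h0]
      have := geom_sum_mul_neg ((starRingEnd ℂ) w * z) L
      rw [this]
      ring
    rw [← Finset.mul_sum, ← Finset.mul_sum]
    have h2 : z / (1 - (starRingEnd ℂ) w * z) = z * (1 / (1 - (starRingEnd ℂ) w * z)) := by ring
    rw [h2, h1]
    ring
  set I := ∫ w in Metric.ball (0 : ℂ) 1,
      w ^ j * (((1 - Complex.normSq w) ^ (s + 1) : ℝ) : ℂ) * (z / (1 - (starRingEnd ℂ) w * z)) with hI
  have hle : ∀ M : ℕ, j < M → ‖I - (cc (s + 1) j : ℂ) * z ^ (j + 1)‖ ≤ 2 * (Real.pi / (M + 1)) := by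
    intro M hM
    rw [hexp (2 * M)]
    have h1 : ∑ l ∈ Finset.range (2 * M), (if l = j then (cc (s + 1) j : ℂ) * z ^ (j + 1) else 0) =
        (cc (s + 1) j : ℂ) * z ^ (j + 1) := by
      rw [Finset.sum_ite_eq' , if_pos (Finset.mem_range.2 (by omega))]
    rw [h1, add_sub_cancel_left]
    have h2 : IntegrableOn (fun w : ℂ => 2 * (Complex.normSq w ^ M * (1 - Complex.normSq w) ^ 0 : ℝ))
        (Metric.ball (0 : ℂ) 1) := by
      refine Measure.integrableOn_of_bounded (M := 2) measure_ball_lt_top.ne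
        ((measurable_const.mul ((hnm.pow_const _).mul
          ((measurable_const.sub hnm).pow_const _))).aestronglyMeasurable) ?_
      rw [ae_restrict_iff' Metric.isOpen_ball.measurableSet]
      refine Eventually.of_forall fun w hw => ?_
      have h3 := (ball_iff w).1 hw
      have h4 := Complex.normSq_nonneg w
      rw [pow_zero, mul_one, Real.norm_eq_abs, abs_of_nonneg (by positivity)]
      have := pow_le_one₀ (n := M) h4 h3.le
      linarith
    refine (norm_integral_le_integral_norm _).trans ?_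
    have h5 : ∫ w in Metric.ball (0 : ℂ) 1, 2 * (Complex.normSq w ^ M * (1 - Complex.normSq w) ^ 0 : ℝ)
        = 2 * (Real.pi / (M + 1)) := by
      rw [integral_const_mul, diag, cc_zero]
    rw [← h5]
    refine setIntegral_mono_on (hiq _).norm h2 Metric.isOpen_ball.measurableSet fun w hw => ?_
    refine (hbd _ w hw).trans (le_of_eq ?_)
    rw [pow_zero, mul_one, Complex.normSq_eq_norm_sq, pow_mul]
  have hlim : Tendsto (fun M : ℕ => 2 * (Real.pi / ((M : ℝ) + 1))) atTop (𝓝 (2 * 0)) := by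
    refine Tendsto.const_mul _ ?_
    exact tendsto_const_nhds.div_atTop (tendsto_atTop_add_const_right _ _ tendsto_natCast_atTop_atTop)
  rw [mul_zero] at hlim
  have hz0 : ‖I - (cc (s + 1) j : ℂ) * z ^ (j + 1)‖ ≤ 0 := by
    refine ge_of_tendsto hlim ?_
    filter_upwards [eventually_gt_atTop j] with M hM
    exact hle M hM
  have := norm_eq_zero.1 (le_antisymm hz0 (norm_nonneg _))
  exact sub_eq_zero.1 this

end Pool.Agent.X125.BT
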