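import Pool.Agent.X125.BT.B
import Pool.Agent.Y338.BP.G
import Pool.Agent.TH55.PowE

set_option autoImplicit false

/-!
# Functional calculus of the Beurling transform (helper125)
-/

open MeasureTheory Filter Topology Set
open scoped SchwartzMap ENNReal NNReal

namespace Pool.Agent.X125.BT

open Pool.Agent.TH55.PowA

/-- the weight on the disc -/
noncomputable def wt (s : ℕ) (G : ℂ → ℂ) (w : ℂ) : ℝ := ‖G w‖ * (1 - Complex.normSq w) ^ s

/-- the measure -/
noncomputable def nu (s : ℕ) (G : ℂ → ℂ) : Measure ℂ :=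
  (volume.restrict (Metric.ball (0 : ℂ) 1)).withDensity (fun w => ENNReal.ofReal (wt s G w))

lemma wt_meas (s : ℕ) {G : ℂ → ℂ} (hG : Measurable G) : Measurable (wt s G) :=
  hG.norm.mul ((measurable_const.sub nsq_meas).pow_const _)

lemma wt_nonneg (s : ℕ) (G : ℂ → ℂ) {w : ℂ} (hw : w ∈ Metric.ball (0 : ℂ) 1) : 0 ≤ wt s G w :=
  mul_nonneg (norm_nonneg _) (pow_nonneg (one_sub_le hw).1 _)

lemma wt_le (s : ℕ) {G : ℂ → ℂ} {C : ℝ} (hC : ∀ w ∈ Metric.ball (0 : ℂ) 1, ‖G w‖ ≤ C) {w : ℂ}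
    (hw : w ∈ Metric.ball (0 : ℂ) 1) : wt s G w ≤ C := by
  have h := one_sub_le hw
  calc wt s G w ≤ ‖G w‖ * 1 := mul_le_mul_of_nonneg_left (pow_le_one₀ h.1 h.2) (norm_nonneg _)
    _ ≤ C := by rw [mul_one]; exact hC w hw

lemma wt_int (s : ℕ) {G : ℂ → ℂ} (hG : Measurable G) {C : ℝ}
    (hC : ∀ w ∈ Metric.ball (0 : ℂ) 1, ‖G w‖ ≤ C) :
    IntegrableOn (wt s G) (Metric.ball (0 : ℂ) 1) := by
  refine Measure.integrableOn_of_bounded (M := C) measure_ball_lt_top.ne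
    (wt_meas s hG).aestronglyMeasurable ?_
  rw [ae_restrict_iff' Metric.isOpen_ball.measurableSet]
  refine Eventually.of_forall fun w hw => ?_
  rw [Real.norm_eq_abs, abs_of_nonneg (wt_nonneg s G hw)]
  exact wt_le s hC hw

lemma nu_univ (s : ℕ) {G : ℂ → ℂ} (hG : Measurable G) {C : ℝ}
    (hC : ∀ w ∈ Metric.ball (0 : ℂ) 1, ‖G w‖ ≤ C) :
    nu s G univ = ENNReal.ofReal (∫ w in Metric.ball (0 : ℂ) 1, wt s G w) := by
  unfold nu
  rw [withDensity_apply _ MeasurableSet.univ, Measure.restrict_univ,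
    ofReal_integral_eq_lintegral_ofReal (wt_int s hG hC)]
  rw [EventuallyLE, ae_restrict_iff' Metric.isOpen_ball.measurableSet]
  exact Eventually.of_forall fun w hw => wt_nonneg s G hw

lemma nu_ae (s : ℕ) (G : ℂ → ℂ) : ∀ᵐ w ∂(nu s G), ‖w‖ < 1 := by
  refine (withDensity_absolutelyContinuous _ _).ae_le ?_
  filter_upwards [ae_restrict_mem Metric.isOpen_ball.measurableSet] with w hw
  rwa [mem_ball_zero_iff] at hw

/-- the sign -/
noncomputable def sg (G : ℂ → ℂ) (w : ℂ) : ℂ := G w / (‖G w‖ : ℂ)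

lemma sg_meas {G : ℂ → ℂ} (hG : Measurable G) : Measurable (sg G) :=
  hG.div (Complex.measurable_ofReal.comp hG.norm)

lemma sg_le (G : ℂ → ℂ) (w : ℂ) : ‖sg G w‖ ≤ 1 := by
  unfold sg
  rw [norm_div, Complex.norm_real, norm_norm]
  exact div_self_le_one _

lemma nu_integral (s : ℕ) {G : ℂ → ℂ} (hG : Measurable G) (h : ℂ → ℂ) :
    ∫ w, sg G w * h w ∂(nu s G) = ∫ w in Metric.ball (0 : ℂ) 1,
      G w * (((1 - Complex.normSq w) ^ s : ℝ) : ℂ) * h w := by
  unfold nu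
  rw [integral_withDensity_eq_integral_toReal_smul
    (wt_meas s hG).ennreal_ofReal (Eventually.of_forall fun _ => ENNReal.ofReal_lt_top)]
  refine setIntegral_congr_fun Metric.isOpen_ball.measurableSet fun w hw => ?_
  rw [ENNReal.toReal_ofReal (wt_nonneg s G hw), Complex.real_smul]
  unfold wt sg
  rcases eq_or_ne (G w) 0 with h0 | h0
  · rw [h0]; simp
  · have : (‖G w‖ : ℂ) ≠ 0 := by exact_mod_cast norm_ne_zero_iff.2 h0
    push_cast
    field_simp

/-- the multiplier of a measurable bounded function on the disc -/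
theorem gen_bound {p : ℝ} (hp : 2 ≤ p) (s : ℕ) {G : ℂ → ℂ} (hG : Measurable G) {C : ℝ}
    (hC : ∀ w ∈ Metric.ball (0 : ℂ) 1, ‖G w‖ ≤ C) (f : 𝓢(ℂ, ℂ)) :
    eLpNorm (T (fun ξ => ∫ w in Metric.ball (0 : ℂ) 1,
        G w * (((1 - Complex.normSq w) ^ s : ℝ) : ℂ) * mb w (bs ξ)) f) (ENNReal.ofReal p) volume
      ≤ ENNReal.ofReal (∫ w in Metric.ball (0 : ℂ) 1, wt s G w) *
        (ENNReal.ofReal (p - 1) * eLpNorm f (ENNReal.ofReal p) volume) := by
  have hfin : IsFiniteMeasure (nu s G) :=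
    ⟨by rw [nu_univ s hG hC]; exact ENNReal.ofReal_lt_top⟩
  have hP : (1 : ℝ≥0∞) ≤ ENNReal.ofReal p := by
    rw [← ENNReal.ofReal_one]
    exact ENNReal.ofReal_le_ofReal (by linarith)
  have h := avg_bound' hP ENNReal.ofReal_ne_top (base p hp) (nu s G) (nu_ae s G) (sg G)
    (sg_meas hG) (sg_le G) f
  simp only [nu_integral s hG] at h
  rwa [nu_univ s hG hC] at h

lemma poly_meas (d : ℕ) (g : ℕ → ℂ) : Measurable (fun w : ℂ => ∑ j ∈ Finset.range d, g j * w ^ j) :=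
  (continuous_finsetSum _ fun j _ => continuous_const.mul (continuous_id.pow j)).measurable

lemma poly_bdd (d : ℕ) (g : ℕ → ℂ) : ∀ w ∈ Metric.ball (0 : ℂ) 1,
    ‖∑ j ∈ Finset.range d, g j * w ^ j‖ ≤ ∑ j ∈ Finset.range d, ‖g j‖ := by
  intro w hw
  rw [mem_ball_zero_iff] at hw
  refine (norm_sum_le _ _).trans (Finset.sum_le_sum fun j _ => ?_)
  rw [norm_mul, norm_pow]
  have := pow_le_one₀ (n := j) (norm_nonneg w) hw.le
  nlinarith [norm_nonneg (g j)]

lemma poly_int (s d : ℕ) (g : ℕ → ℂ) {z : ℂ} (hz : ‖z‖ = 1) : ∫ w in Metric.ball (0 : ℂ) 1,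
    (∑ j ∈ Finset.range d, g j * w ^ j) * (((1 - Complex.normSq w) ^ s : ℝ) : ℂ) * mb w z =
      ∑ j ∈ Finset.range d, g j * (cc (s + 1) j : ℂ) * z ^ (j + 1) := by
  have hmeas0 : Measurable (fun w : ℂ => (((1 - Complex.normSq w) ^ s : ℝ) : ℂ)) :=
    Complex.measurable_ofReal.comp ((measurable_const.sub nsq_meas).pow_const _)
  have hi : ∀ j : ℕ, IntegrableOn (fun w : ℂ => g j * (w ^ j *
      (((1 - Complex.normSq w) ^ s : ℝ) : ℂ) * mb w z)) (Metric.ball (0 : ℂ) 1) := by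
    intro j
    refine int_of_bdd (measurable_const.mul (((measurable_id.pow_const _).mul hmeas0).mul
      (mb_meas.comp (measurable_id.prodMk measurable_const)))) ‖g j‖ fun w hw => ?_
    have h1 := one_sub_le hw
    rw [mem_ball_zero_iff] at hw
    rw [norm_mul, norm_mul, norm_mul, norm_pow, Complex.norm_real, Real.norm_eq_abs,
      abs_of_nonneg (pow_nonneg h1.1 _)]
    have h2 : ‖w‖ ^ j * (1 - Complex.normSq w) ^ s * ‖mb w z‖ ≤ 1 :=
      mul_le_one₀ (mul_le_one₀ (pow_le_one₀ (norm_nonneg _) hw.le) (pow_nonneg h1.1 _)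
        (pow_le_one₀ h1.1 h1.2)) (norm_nonneg _) (mb_le hw hz.le)
    nlinarith [norm_nonneg (g j)]
  have h1 : ∀ w : ℂ, (∑ j ∈ Finset.range d, g j * w ^ j) * (((1 - Complex.normSq w) ^ s : ℝ) : ℂ) *
      mb w z = ∑ j ∈ Finset.range d, g j * (w ^ j * (((1 - Complex.normSq w) ^ s : ℝ) : ℂ) * mb w z) := by
    intro w
    rw [Finset.sum_mul, Finset.sum_mul]
    exact Finset.sum_congr rfl fun j _ => by ring
  simp only [h1]
  rw [integral_finsetSum _ fun j _ => hi j]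
  refine Finset.sum_congr rfl fun j _ => ?_
  rw [integral_const_mul, disc_mb s j hz]
  ring

theorem poly_bound {p : ℝ} (hp : 2 ≤ p) (s d : ℕ) (g : ℕ → ℂ) (f : 𝓢(ℂ, ℂ)) :
    eLpNorm (T (fun ξ => ∑ j ∈ Finset.range d, g j * (cc (s + 1) j : ℂ) * bs ξ ^ (j + 1)) f)
        (ENNReal.ofReal p) volume
      ≤ ENNReal.ofReal (∫ w in Metric.ball (0 : ℂ) 1,
          wt s (fun w => ∑ j ∈ Finset.range d, g j * w ^ j) w) *
        (ENNReal.ofReal (p - 1) * eLpNorm f (ENNReal.ofReal p) volume) := by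
  have h := gen_bound hp s (poly_meas d g) (poly_bdd d g) f
  refine le_trans (le_of_eq ?_) h
  congr 1
  funext z
  refine T_congr (fun ξ hξ => ?_) f z
  exact (poly_int s d g (bs_norm ξ hξ)).symm

lemma cc_one (j : ℕ) : cc 1 j = Real.pi / (((j : ℝ) + 1) * (j + 2)) := by
  unfold cc
  have h : ∀ t : ℝ, t ^ j * (1 - t) ^ 1 = t ^ j - t ^ (j + 1) := fun t => by ring
  simp only [h]
  rw [intervalIntegral.integral_sub (by simp) (by simp), integral_pow, integral_pow]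
  have h1 : (j : ℝ) + 1 ≠ 0 := by positivity
  have h2 : (j : ℝ) + 2 ≠ 0 := by positivity
  push_cast
  have h3 : (j : ℝ) + 1 + 1 ≠ 0 := by positivity
  simp only [one_pow, ne_eq, Nat.add_eq_zero_iff, one_ne_zero, and_false, not_false_eq_true, zero_pow, sub_zero]
  field_simp
  ring

lemma cc_two (j : ℕ) : cc 2 j = 2 * Real.pi / (((j : ℝ) + 1) * (j + 2) * (j + 3)) := by
  unfold cc
  have h : ∀ t : ℝ, t ^ j * (1 - t) ^ 2 = t ^ j - 2 * t ^ (j + 1) + t ^ (j + 2) := fun t => by ring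
  simp only [h]
  rw [intervalIntegral.integral_add ((by simp : IntervalIntegrable _ _ _ _).sub
      ((by simp : IntervalIntegrable _ _ _ _).const_mul 2)) (by simp),
    intervalIntegral.integral_sub (by simp) ((by simp : IntervalIntegrable _ _ _ _).const_mul 2),
    intervalIntegral.integral_const_mul, integral_pow, integral_pow, integral_pow]
  push_cast
  simp only [one_pow, ne_eq, Nat.add_eq_zero_iff, one_ne_zero, and_false, not_false_eq_true, zero_pow, sub_zero]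
  have h1 : (j : ℝ) + 1 ≠ 0 := by positivity
  have h3 : (j : ℝ) + 1 + 1 ≠ 0 := by positivity
  have h4 : (j : ℝ) + 2 + 1 ≠ 0 := by positivity
  have h5 : (j : ℝ) + 2 ≠ 0 := by positivity
  have h6 : (j : ℝ) + 3 ≠ 0 := by positivity
  field_simp
  ring

end Pool.Agent.X125.BT
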