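import Mathlib

set_option autoImplicit false

/-!
# Taylor coefficients of finite Blaschke products (helper125)
-/

open Filter Topology Set

namespace Pool.Agent.X125.BT

/-- division by `1 - conj w X` -/
noncomputable def ys (w : ℂ) (v : ℕ → ℂ) : ℕ → ℂ
  | 0 => v 0
  | k + 1 => v (k + 1) + (starRingEnd ℂ) w * ys w v k

/-- the shift -/
def sh (v : ℕ → ℂ) : ℕ → ℂ
  | 0 => 0
  | k + 1 => v k

/-- multiplication by the Moebius map -/
noncomputable def Mw (w : ℂ) (v : ℕ → ℂ) (k : ℕ) : ℂ := sh (ys w v) k - w * ys w v k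

lemma ys_sh (w : ℂ) (v : ℕ → ℂ) (k : ℕ) : ys w (sh v) k = sh (ys w v) k := by
  induction k with
  | zero => rfl
  | succ k ih =>
    show v k + (starRingEnd ℂ) w * ys w (sh v) k = ys w v k
    rw [ih]
    cases k with
    | zero => show v 0 + (starRingEnd ℂ) w * 0 = v 0; ring
    | succ m => rfl

lemma ys_lin (w c : ℂ) (a b : ℕ → ℂ) (k : ℕ) :
    ys w (fun k => a k - c * b k) k = ys w a k - c * ys w b k := by
  induction k with
  | zero => rfl
  | succ k ih =>
    show a (k + 1) - c * b (k + 1) + (starRingEnd ℂ) w * ys w (fun k => a k - c * b k) k =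
      (a (k + 1) + (starRingEnd ℂ) w * ys w a k) - c * (b (k + 1) + (starRingEnd ℂ) w * ys w b k)
    rw [ih]; ring

lemma ys_two (w w' : ℂ) (v : ℕ → ℂ) (k : ℕ) :
    ((starRingEnd ℂ) w - (starRingEnd ℂ) w') * ys w (ys w' v) k =
      (starRingEnd ℂ) w * ys w v k - (starRingEnd ℂ) w' * ys w' v k := by
  induction k with
  | zero =>
    show ((starRingEnd ℂ) w - (starRingEnd ℂ) w') * v 0 = (starRingEnd ℂ) w * v 0 -
      (starRingEnd ℂ) w' * v 0
    ring
  | succ k ih =>
    show ((starRingEnd ℂ) w - (starRingEnd ℂ) w') * ((v (k + 1) + (starRingEnd ℂ) w' * ys w' v k) +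
      (starRingEnd ℂ) w * ys w (ys w' v) k) =
      (starRingEnd ℂ) w * (v (k + 1) + (starRingEnd ℂ) w * ys w v k) -
      (starRingEnd ℂ) w' * (v (k + 1) + (starRingEnd ℂ) w' * ys w' v k)
    linear_combination (starRingEnd ℂ) w * ih

lemma ys_comm (w w' : ℂ) (v : ℕ → ℂ) (k : ℕ) : ys w (ys w' v) k = ys w' (ys w v) k := by
  induction k with
  | zero => rfl
  | succ k ih =>
    show (v (k + 1) + (starRingEnd ℂ) w' * ys w' v k) + (starRingEnd ℂ) w * ys w (ys w' v) k =
      (v (k + 1) + (starRingEnd ℂ) w * ys w v k) + (starRingEnd ℂ) w' * ys w' (ys w v) k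
    rw [← ih]
    linear_combination ys_two w w' v k

lemma ys_Mw (w w' : ℂ) (v : ℕ → ℂ) (k : ℕ) : ys w (Mw w' v) k = Mw w' (ys w v) k := by
  have h1 : Mw w' v = fun k => sh (ys w' v) k - w' * ys w' v k := rfl
  rw [h1, ys_lin, ys_sh]
  show sh (ys w (ys w' v)) k - w' * ys w (ys w' v) k = sh (ys w' (ys w v)) k - w' * ys w' (ys w v) k
  have h2 : ys w (ys w' v) = ys w' (ys w v) := funext (ys_comm w w' v)
  rw [h2]

/-- partial sums of squares -/
noncomputable def En (M : ℕ) (v : ℕ → ℂ) : ℝ := ∑ k ∈ Finset.range M, ‖v k‖ ^ 2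

lemma En_nonneg (M : ℕ) (v : ℕ → ℂ) : 0 ≤ En M v := Finset.sum_nonneg fun _ _ => by positivity

lemma sq_id (w a b : ℂ) : ‖a - (starRingEnd ℂ) w * b‖ ^ 2 - ‖b - w * a‖ ^ 2 =
    (1 - ‖w‖ ^ 2) * (‖a‖ ^ 2 - ‖b‖ ^ 2) := by
  simp only [← Complex.normSq_eq_norm_sq, Complex.normSq_apply, Complex.sub_re, Complex.sub_im,
    Complex.mul_re, Complex.mul_im, Complex.conj_re, Complex.conj_im]
  ring

lemma En_id (w : ℂ) (v : ℕ → ℂ) (K : ℕ) :
    En (K + 1) v - En (K + 1) (Mw w v) = (1 - ‖w‖ ^ 2) * ‖ys w v K‖ ^ 2 := by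
  induction K with
  | zero =>
    simp only [En, zero_add, Finset.range_one, Finset.sum_singleton]
    show ‖v 0‖ ^ 2 - ‖(0 : ℂ) - w * v 0‖ ^ 2 = (1 - ‖w‖ ^ 2) * ‖v 0‖ ^ 2
    rw [zero_sub, norm_neg, norm_mul]
    ring
  | succ K ih =>
    have h1 : En (K + 1 + 1) v = En (K + 1) v + ‖v (K + 1)‖ ^ 2 := Finset.sum_range_succ _ _
    have h2 : En (K + 1 + 1) (Mw w v) = En (K + 1) (Mw w v) + ‖Mw w v (K + 1)‖ ^ 2 :=
      Finset.sum_range_succ _ _
    have h3 : v (K + 1) = ys w v (K + 1) - (starRingEnd ℂ) w * ys w v K := by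
      show v (K + 1) = (v (K + 1) + (starRingEnd ℂ) w * ys w v K) - (starRingEnd ℂ) w * ys w v K
      ring
    have h4 : Mw w v (K + 1) = ys w v K - w * ys w v (K + 1) := rfl
    have h5 := sq_id w (ys w v (K + 1)) (ys w v K)
    rw [← h3, ← h4] at h5
    rw [h1, h2]
    linarith

lemma En_Mw {w : ℂ} (hw : ‖w‖ < 1) (v : ℕ → ℂ) (M : ℕ) : En M (Mw w v) ≤ En M v := by
  cases M with
  | zero => simp [En]
  | succ K =>
    have h := En_id w v K
    have h1 : 0 ≤ (1 - ‖w‖ ^ 2) * ‖ys w v K‖ ^ 2 :=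
      mul_nonneg (by nlinarith [norm_nonneg w]) (by positivity)
    linarith

/-- the coefficients of the Blaschke product with zeros `l` -/
noncomputable def Bl : List ℂ → ℕ → ℂ
  | [] => fun k => if k = 0 then 1 else 0
  | w :: l => Mw w (Bl l)

/-- applying all factors -/
noncomputable def Ml : List ℂ → (ℕ → ℂ) → ℕ → ℂ
  | [], v => v
  | w :: l, v => Mw w (Ml l v)

lemma En_Ml {l : List ℂ} (hl : ∀ w ∈ l, ‖w‖ < 1) (v : ℕ → ℂ) (M : ℕ) : En M (Ml l v) ≤ En M v := by
  induction l with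
  | nil => exact le_rfl
  | cons w l ih =>
    exact (En_Mw (hl w (by simp)) _ M).trans (ih fun w' hw' => hl w' (by simp [hw']))

lemma ys_Bl (w : ℂ) (l : List ℂ) : ys w (Bl l) = Ml l (ys w (Bl [])) := by
  induction l with
  | nil => rfl
  | cons w' l ih =>
    funext k
    show ys w (Mw w' (Bl l)) k = Mw w' (Ml l (ys w (Bl []))) k
    rw [ys_Mw, ih]

lemma ys_delta (w : ℂ) (k : ℕ) : ys w (Bl []) k = (starRingEnd ℂ) w ^ k := by
  induction k with
  | zero => simp [ys, Bl]
  | succ k ih =>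
    show (if k + 1 = 0 then (1 : ℂ) else 0) + (starRingEnd ℂ) w * ys w (Bl []) k = _
    rw [ih, if_neg (by omega), pow_succ]
    ring

lemma geom_En {w : ℂ} (hw : ‖w‖ < 1) (M : ℕ) :
    (1 - ‖w‖ ^ 2) * En M (fun k => (starRingEnd ℂ) w ^ k) ≤ 1 := by
  have h1 : En M (fun k => (starRingEnd ℂ) w ^ k) = ∑ k ∈ Finset.range M, (‖w‖ ^ 2) ^ k := by
    refine Finset.sum_congr rfl fun k _ => ?_
    rw [norm_pow, RCLike.norm_conj]
    ring
  rw [h1, mul_comm, geom_sum_mul_neg]
  have : 0 ≤ (‖w‖ ^ 2) ^ M := by positivity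
  linarith

/-- the Hankel matrix of the coefficients as a sum of products of unit vectors -/
theorem hankel (l : List ℂ) (hl : ∀ w ∈ l, ‖w‖ < 1) :
    ∃ U V : Fin l.length → ℕ → ℂ, (∀ i M, En M (U i) ≤ 1) ∧ (∀ i M, En M (V i) ≤ 1) ∧
      ∀ j k, Bl l (j + k + 1) = ∑ i, U i j * V i k := by
  induction l with
  | nil =>
    refine ⟨fun i => i.elim0, fun i => i.elim0, fun i => i.elim0, fun i => i.elim0, fun j k => ?_⟩
    simp [Bl]
  | cons w l ih =>
    obtain ⟨U, V, hU, hV, hH⟩ := ih fun w' hw' => hl w' (by simp [hw'])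
    have hw : ‖w‖ < 1 := hl w (by simp)
    have hr0 : 0 ≤ 1 - ‖w‖ ^ 2 := by nlinarith [norm_nonneg w]
    set r : ℝ := Real.sqrt (1 - ‖w‖ ^ 2) with hr
    have hr2 : r ^ 2 = 1 - ‖w‖ ^ 2 := Real.sq_sqrt hr0
    have hrn : 0 ≤ r := Real.sqrt_nonneg _
    have hsc : ∀ (M : ℕ) (v : ℕ → ℂ), En M (fun k => (r : ℂ) * v k) = (1 - ‖w‖ ^ 2) * En M v := by
      intro M v
      unfold En
      rw [Finset.mul_sum]
      refine Finset.sum_congr rfl fun k _ => ?_
      rw [norm_mul, Complex.norm_real, Real.norm_eq_abs, mul_pow, sq_abs, hr2]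
    refine ⟨Fin.cons (fun j => (r : ℂ) * (starRingEnd ℂ) w ^ j) (fun i => Mw w (U i)),
      Fin.cons (fun k => (r : ℂ) * ys w (Bl l) k) V, ?_, ?_, ?_⟩
    · intro i M
      refine Fin.cases ?_ (fun i => ?_) i
      · simp only [Fin.cons_zero]
        rw [hsc]
        exact geom_En hw M
      · simp only [Fin.cons_succ]
        exact (En_Mw hw _ M).trans (hU i M)
    · intro i M
      refine Fin.cases ?_ (fun i => ?_) i
      · simp only [Fin.cons_zero]
        rw [hsc, ys_Bl]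
        have h1 := En_Ml (fun w' hw' => hl w' (by simp [hw'])) (ys w (Bl [])) M (l := l)
        have h2 : ys w (Bl []) = fun k => (starRingEnd ℂ) w ^ k := funext (ys_delta w)
        have h3 := geom_En hw M
        rw [h2] at h1 ⊢
        calc (1 - ‖w‖ ^ 2) * En M (Ml l fun k => (starRingEnd ℂ) w ^ k)
            ≤ (1 - ‖w‖ ^ 2) * En M (fun k => (starRingEnd ℂ) w ^ k) :=
              mul_le_mul_of_nonneg_left h1 hr0
          _ ≤ 1 := h3
      · simp only [Fin.cons_succ]
        exact hV i M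
    · intro j k
      have hsum : ∀ j, ∑ i, U i j * V i k = Bl l (j + k + 1) := fun j => (hH j k).symm
      -- the columns
      have hZ : ∀ j, ys w (Bl l) (j + k + 1) = (∑ i, ys w (U i) j * V i k) +
          (starRingEnd ℂ) w ^ (j + 1) * ys w (Bl l) k := by
        intro j
        induction j with
        | zero =>
          have e : ys w (Bl l) (0 + k + 1) = Bl l (0 + k + 1) + (starRingEnd ℂ) w * ys w (Bl l) k := by
            rw [zero_add]; rfl
          rw [e, ← hsum 0]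
          simp only [ys, zero_add, pow_one]
        | succ j ih =>
          have e : ys w (Bl l) (j + 1 + k + 1) = Bl l (j + 1 + k + 1) +
              (starRingEnd ℂ) w * ys w (Bl l) (j + k + 1) := by
            have : j + 1 + k + 1 = (j + k + 1) + 1 := by ring
            rw [this]; rfl
          rw [e, ih, ← hsum (j + 1)]
          have e2 : ∑ i, ys w (U i) (j + 1) * V i k = ∑ i, U i (j + 1) * V i k +
              (starRingEnd ℂ) w * ∑ i, ys w (U i) j * V i k := by
            rw [Finset.mul_sum, ← Finset.sum_add_distrib]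
            refine Finset.sum_congr rfl fun i _ => ?_
            show (U i (j + 1) + (starRingEnd ℂ) w * ys w (U i) j) * V i k = _
            ring
          rw [e2]
          ring
      have hww : w * (starRingEnd ℂ) w = ((‖w‖ ^ 2 : ℝ) : ℂ) := by
        rw [Complex.mul_conj, Complex.normSq_eq_norm_sq]
      have hrr : (r : ℂ) * (r : ℂ) = 1 - w * (starRingEnd ℂ) w := by
        rw [hww, ← Complex.ofReal_mul, ← sq, hr2]
        push_cast
        ring
      have hfin : ∑ i : Fin (l.length + 1), (Fin.cons (fun j => (r : ℂ) * (starRingEnd ℂ) w ^ j)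
          (fun i => Mw w (U i)) : Fin (l.length + 1) → ℕ → ℂ) i j *
          (Fin.cons (fun k => (r : ℂ) * ys w (Bl l) k) V : Fin (l.length + 1) → ℕ → ℂ) i k =
          ((r : ℂ) * (starRingEnd ℂ) w ^ j) * ((r : ℂ) * ys w (Bl l) k) +
            ∑ i, Mw w (U i) j * V i k := by
        rw [Fin.sum_univ_succ]
        simp only [Fin.cons_zero, Fin.cons_succ]
      show Mw w (Bl l) (j + k + 1) = _
      refine Eq.trans ?_ hfin.symm
      have h6 : Mw w (Bl l) (j + k + 1) = ys w (Bl l) (j + k) - w * ys w (Bl l) (j + k + 1) := rfl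
      rw [h6, hZ j]
      cases j with
      | zero =>
        have h7 : ∑ i, Mw w (U i) 0 * V i k = - w * ∑ i, ys w (U i) 0 * V i k := by
          rw [Finset.mul_sum]
          refine Finset.sum_congr rfl fun i _ => ?_
          show (0 - w * ys w (U i) 0) * V i k = _
          ring
        rw [h7, zero_add]
        linear_combination (-(ys w (Bl l) k)) * hrr
      | succ j =>
        have h7 : ∑ i, Mw w (U i) (j + 1) * V i k = (∑ i, ys w (U i) j * V i k) -
            w * ∑ i, ys w (U i) (j + 1) * V i k := by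
          rw [Finset.mul_sum, ← Finset.sum_sub_distrib]
          refine Finset.sum_congr rfl fun i _ => ?_
          show (ys w (U i) j - w * ys w (U i) (j + 1)) * V i k = _
          ring
        have h8 : j + 1 + k = j + k + 1 := by ring
        rw [h7, h8, hZ j]
        linear_combination (-((starRingEnd ℂ) w ^ (j + 1) * ys w (Bl l) k)) * hrr

/-! ### summability and values -/

lemma ys_norm_sum {w : ℂ} (hw : ‖w‖ < 1) {v : ℕ → ℂ} {S : ℝ}
    (hS : ∀ K, ∑ k ∈ Finset.range K, ‖v k‖ ≤ S) (K : ℕ) :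
    ∑ k ∈ Finset.range K, ‖ys w v k‖ ≤ S / (1 - ‖w‖) := by
  have h0 : 0 < 1 - ‖w‖ := by linarith
  have hS0 : 0 ≤ S := by simpa using hS 0
  induction K with
  | zero => simp; positivity
  | succ K ih =>
    rw [Finset.sum_range_succ' (fun k => ‖ys w v k‖)]
    have h1 : ∑ k ∈ Finset.range K, ‖ys w v (k + 1)‖ ≤ ∑ k ∈ Finset.range K, ‖v (k + 1)‖ +
        ‖w‖ * ∑ k ∈ Finset.range K, ‖ys w v k‖ := by
      rw [Finset.mul_sum, ← Finset.sum_add_distrib]
      refine Finset.sum_le_sum fun k _ => ?_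
      show ‖v (k + 1) + (starRingEnd ℂ) w * ys w v k‖ ≤ _
      refine (norm_add_le _ _).trans ?_
      rw [norm_mul, RCLike.norm_conj]
    have h2 : ∑ k ∈ Finset.range K, ‖v (k + 1)‖ + ‖v 0‖ ≤ S := by
      rw [← Finset.sum_range_succ' (fun k => ‖v k‖)]
      exact hS (K + 1)
    have h3 : ‖ys w v 0‖ = ‖v 0‖ := rfl
    rw [h3]
    have h4 : ‖w‖ * ∑ k ∈ Finset.range K, ‖ys w v k‖ ≤ ‖w‖ * (S / (1 - ‖w‖)) :=
      mul_le_mul_of_nonneg_left ih (norm_nonneg _)
    have h5 : S / (1 - ‖w‖) = S + ‖w‖ * (S / (1 - ‖w‖)) := by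
      field_simp
      ring
    linarith

lemma ys_summable {w : ℂ} (hw : ‖w‖ < 1) {v : ℕ → ℂ} (hv : Summable fun k => ‖v k‖) :
    Summable fun k => ‖ys w v k‖ := by
  refine summable_of_sum_range_le (c := (∑' k, ‖v k‖) / (1 - ‖w‖)) (fun _ => norm_nonneg _) ?_
  exact ys_norm_sum hw fun K => hv.sum_le_tsum _ fun _ _ => norm_nonneg _

lemma sh_summable {v : ℕ → ℂ} (hv : Summable fun k => ‖v k‖) : Summable fun k => ‖sh v k‖ := by
  rw [← summable_nat_add_iff 1]
  exact hv

lemma Mw_summable {w : ℂ} (hw : ‖w‖ < 1) {v : ℕ → ℂ} (hv : Summable fun k => ‖v k‖) :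
    Summable fun k => ‖Mw w v k‖ := by
  have h1 := ys_summable hw hv
  refine Summable.of_nonneg_of_le (fun _ => norm_nonneg _) (fun k => ?_)
    ((sh_summable h1).add (h1.mul_left ‖w‖))
  unfold Mw
  refine (norm_sub_le _ _).trans ?_
  rw [norm_mul]

/-- the value of the series -/
noncomputable def val (v : ℕ → ℂ) (z : ℂ) : ℂ := ∑' k, v k * z ^ k

lemma term_summable {v : ℕ → ℂ} (hv : Summable fun k => ‖v k‖) {z : ℂ} (hz : ‖z‖ ≤ 1) :
    Summable fun k => v k * z ^ k := by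
  refine Summable.of_norm (Summable.of_nonneg_of_le (fun _ => norm_nonneg _) (fun k => ?_) hv)
  rw [norm_mul, norm_pow]
  have := pow_le_one₀ (n := k) (norm_nonneg z) hz
  nlinarith [norm_nonneg (v k)]

lemma val_zero_add {v : ℕ → ℂ} (hv : Summable fun k => ‖v k‖) {z : ℂ} (hz : ‖z‖ ≤ 1) :
    val v z = v 0 + ∑' k, v (k + 1) * z ^ (k + 1) := by
  unfold val
  rw [(term_summable hv hz).tsum_eq_zero_add]
  simp

lemma val_ys {w : ℂ} (hw : ‖w‖ < 1) {v : ℕ → ℂ} (hv : Summable fun k => ‖v k‖) {z : ℂ}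
    (hz : ‖z‖ ≤ 1) : val (ys w v) z * (1 - (starRingEnd ℂ) w * z) = val v z := by
  have h1 := ys_summable hw hv
  have h2 := val_zero_add h1 hz
  have h3 := val_zero_add hv hz
  have hsv : Summable fun k => v (k + 1) * z ^ (k + 1) := by
    have := (summable_nat_add_iff 1).2 (term_summable hv hz)
    exact this
  have h4 : ∑' k, ys w v (k + 1) * z ^ (k + 1) = ∑' k, v (k + 1) * z ^ (k + 1) +
      (starRingEnd ℂ) w * z * val (ys w v) z := by
    unfold val
    rw [← tsum_mul_left, ← hsv.tsum_add ((term_summable h1 hz).mul_left _)]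
    refine tsum_congr fun k => ?_
    show (v (k + 1) + (starRingEnd ℂ) w * ys w v k) * z ^ (k + 1) = _
    ring
  have h5 : ys w v 0 = v 0 := rfl
  rw [h4, h5] at h2
  linear_combination h2 - h3

lemma val_sh {v : ℕ → ℂ} (hv : Summable fun k => ‖v k‖) {z : ℂ} (hz : ‖z‖ ≤ 1) :
    val (sh v) z = z * val v z := by
  rw [val_zero_add (sh_summable hv) hz]
  unfold val
  rw [← tsum_mul_left]
  show 0 + ∑' k, v k * z ^ (k + 1) = _
  rw [zero_add]
  refine tsum_congr fun k => ?_
  ring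

lemma val_Mw {w : ℂ} (hw : ‖w‖ < 1) {v : ℕ → ℂ} (hv : Summable fun k => ‖v k‖) {z : ℂ}
    (hz : ‖z‖ ≤ 1) (h0 : 1 - (starRingEnd ℂ) w * z ≠ 0) :
    val (Mw w v) z = (z - w) / (1 - (starRingEnd ℂ) w * z) * val v z := by
  have h1 := ys_summable hw hv
  have h2 : val (Mw w v) z = val (sh (ys w v)) z - w * val (ys w v) z := by
    unfold val
    rw [← tsum_mul_left, ← (term_summable (sh_summable h1) hz).tsum_sub
      ((term_summable h1 hz).mul_left _)]
    refine tsum_congr fun k => ?_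
    unfold Mw
    ring
  rw [h2, val_sh h1 hz, ← val_ys hw hv hz, div_mul_eq_mul_div, eq_div_iff h0]
  ring

lemma Bl_summable {l : List ℂ} (hl : ∀ w ∈ l, ‖w‖ < 1) : Summable fun k => ‖Bl l k‖ := by
  induction l with
  | nil =>
    refine summable_of_ne_finset_zero (s := {0}) fun k hk => ?_
    rw [Finset.mem_singleton] at hk
    simp [Bl, hk]
  | cons w l ih => exact Mw_summable (hl w (by simp)) (ih fun w' hw' => hl w' (by simp [hw']))

lemma Bl_val {l : List ℂ} (hl : ∀ w ∈ l, ‖w‖ < 1) {z : ℂ} (hz : ‖z‖ ≤ 1)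
    (h0 : ∀ w ∈ l, 1 - (starRingEnd ℂ) w * z ≠ 0) :
    val (Bl l) z = (l.map fun w => (z - w) / (1 - (starRingEnd ℂ) w * z)).prod := by
  induction l with
  | nil =>
    unfold val
    rw [tsum_eq_single 0]
    · simp [Bl]
    · intro k hk
      simp [Bl, hk]
  | cons w l ih =>
    rw [List.map_cons, List.prod_cons, ← ih (fun w' hw' => hl w' (by simp [hw']))
      (fun w' hw' => h0 w' (by simp [hw']))]
    exact val_Mw (hl w (by simp)) (Bl_summable fun w' hw' => hl w' (by simp [hw'])) hz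
      (h0 w (by simp))

lemma Bl_zero (l : List ℂ) : Bl l 0 = (l.map fun w => -w).prod := by
  induction l with
  | nil => simp [Bl]
  | cons w l ih =>
    rw [List.map_cons, List.prod_cons, ← ih]
    show 0 - w * Bl l 0 = _
    ring

end Pool.Agent.X125.BT
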