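import Pool.Agent.X125.BT.C
import Pool.Agent.X125.BT.D

set_option autoImplicit false

/-!
# Products of Beurling transforms (helper125)
-/

open MeasureTheory Filter Topology Set
open scoped SchwartzMap ENNReal NNReal

namespace Pool.Agent.X125.BT

open Pool.Agent.TH55.PowA

/-- the weighted derivative -/
noncomputable def pd (M : ℕ) (u : ℕ → ℂ) (w : ℂ) : ℂ :=
  ∑ j ∈ Finset.range M, (((j : ℂ) + 1) * u j) * w ^ j

lemma parseval (M : ℕ) (g : ℕ → ℂ) : ∫ w in Metric.ball (0 : ℂ) 1,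
    ‖∑ j ∈ Finset.range M, g j * w ^ j‖ ^ 2 * (1 - Complex.normSq w) =
      ∑ j ∈ Finset.range M, ‖g j‖ ^ 2 * cc 1 j := by
  have hcm := conj_meas
  have hnm := nsq_meas
  have hi : ∀ j k : ℕ, IntegrableOn (fun w : ℂ => (g j * (starRingEnd ℂ) (g k)) *
      (w ^ j * (starRingEnd ℂ) w ^ k * ((1 - Complex.normSq w : ℝ) : ℂ))) (Metric.ball (0 : ℂ) 1) := by
    intro j k
    refine int_of_bdd (measurable_const.mul (((measurable_id.pow_const _).mul
      (hcm.pow_const _)).mul (Complex.measurable_ofReal.comp (measurable_const.sub hnm))))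
      ‖g j * (starRingEnd ℂ) (g k)‖ fun w hw => ?_
    have h1 := one_sub_le hw
    rw [mem_ball_zero_iff] at hw
    rw [norm_mul]
    have h2 : ‖w ^ j * (starRingEnd ℂ) w ^ k * ((1 - Complex.normSq w : ℝ) : ℂ)‖ ≤ 1 := by
      rw [norm_mul, norm_mul, norm_pow, norm_pow, RCLike.norm_conj, Complex.norm_real,
        Real.norm_eq_abs, abs_of_nonneg h1.1]
      exact mul_le_one₀ (mul_le_one₀ (pow_le_one₀ (norm_nonneg _) hw.le) (by positivity)
        (pow_le_one₀ (norm_nonneg _) hw.le)) h1.1 h1.2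
    nlinarith [norm_nonneg (g j * (starRingEnd ℂ) (g k))]
  have h1 : ((∫ w in Metric.ball (0 : ℂ) 1,
    ‖∑ j ∈ Finset.range M, g j * w ^ j‖ ^ 2 * (1 - Complex.normSq w) : ℝ) : ℂ) =
      ∑ j ∈ Finset.range M, ∑ k ∈ Finset.range M, ∫ w in Metric.ball (0 : ℂ) 1,
        (g j * (starRingEnd ℂ) (g k)) *
          (w ^ j * (starRingEnd ℂ) w ^ k * ((1 - Complex.normSq w : ℝ) : ℂ)) := by
    rw [← integral_complex_ofReal]
    have h2 : ∀ j, ∑ k ∈ Finset.range M, ∫ w in Metric.ball (0 : ℂ) 1,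
        (g j * (starRingEnd ℂ) (g k)) *
          (w ^ j * (starRingEnd ℂ) w ^ k * ((1 - Complex.normSq w : ℝ) : ℂ)) =
        ∫ w in Metric.ball (0 : ℂ) 1, ∑ k ∈ Finset.range M, (g j * (starRingEnd ℂ) (g k)) *
          (w ^ j * (starRingEnd ℂ) w ^ k * ((1 - Complex.normSq w : ℝ) : ℂ)) := fun j =>
      (integral_finsetSum _ fun k _ => hi j k).symm
    rw [Finset.sum_congr rfl fun j _ => h2 j,
      ← integral_finsetSum _ fun j _ => integrable_finsetSum _ fun k _ => hi j k]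
    refine integral_congr_ae (Eventually.of_forall fun w => ?_)
    have h3 : ((‖∑ j ∈ Finset.range M, g j * w ^ j‖ ^ 2 : ℝ) : ℂ) =
        (∑ j ∈ Finset.range M, g j * w ^ j) *
          (starRingEnd ℂ) (∑ j ∈ Finset.range M, g j * w ^ j) := by
      rw [Complex.mul_conj, Complex.normSq_eq_norm_sq]
    simp only
    rw [Complex.ofReal_mul, h3, map_sum, Finset.sum_mul_sum, Finset.sum_mul]
    refine Finset.sum_congr rfl fun j _ => ?_
    rw [Finset.sum_mul]
    refine Finset.sum_congr rfl fun k _ => ?_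
    rw [map_mul, map_pow]
    ring
  have h4 : ∀ j k : ℕ, ∫ w in Metric.ball (0 : ℂ) 1, (g j * (starRingEnd ℂ) (g k)) *
      (w ^ j * (starRingEnd ℂ) w ^ k * ((1 - Complex.normSq w : ℝ) : ℂ)) =
      if j = k then ((‖g j‖ ^ 2 * cc 1 j : ℝ) : ℂ) else 0 := by
    intro j k
    rw [integral_const_mul]
    split_ifs with h
    · subst h
      have h5 : ∀ w : ℂ, w ^ j * (starRingEnd ℂ) w ^ j * ((1 - Complex.normSq w : ℝ) : ℂ) =
          ((Complex.normSq w ^ j * (1 - Complex.normSq w) ^ 1 : ℝ) : ℂ) := by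
        intro w
        rw [← mul_pow, Complex.mul_conj]
        push_cast
        ring
      simp only [h5]
      rw [integral_complex_ofReal, diag, Complex.mul_conj, Complex.normSq_eq_norm_sq]
      push_cast
      ring
    · rw [rot j k h (fun t => 1 - t), mul_zero]
  have h6 : ∑ j ∈ Finset.range M, ∑ k ∈ Finset.range M,
      (if j = k then ((‖g j‖ ^ 2 * cc 1 j : ℝ) : ℂ) else 0) =
      ((∑ j ∈ Finset.range M, ‖g j‖ ^ 2 * cc 1 j : ℝ) : ℂ) := by
    rw [Complex.ofReal_sum]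
    refine Finset.sum_congr rfl fun j hj => ?_
    rw [Finset.sum_ite_eq, if_pos hj]
  rw [Finset.sum_congr rfl fun j _ => Finset.sum_congr rfl fun k _ => h4 j k, h6] at h1
  exact_mod_cast h1

lemma pd_sq (M : ℕ) (u : ℕ → ℂ) (hu : En M u ≤ 1) : ∫ w in Metric.ball (0 : ℂ) 1,
    ‖pd M u w‖ ^ 2 * (1 - Complex.normSq w) ≤ Real.pi := by
  unfold pd
  rw [parseval M (fun j => ((j : ℂ) + 1) * u j)]
  have h1 : ∀ j ∈ Finset.range M, ‖((j : ℂ) + 1) * u j‖ ^ 2 * cc 1 j ≤ Real.pi * ‖u j‖ ^ 2 := by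
    intro j _
    have h2 : ‖((j : ℂ) + 1)‖ = (j : ℝ) + 1 := by
      have : ((j : ℂ) + 1) = (((j : ℝ) + 1 : ℝ) : ℂ) := by push_cast; rfl
      rw [this, Complex.norm_real, Real.norm_eq_abs, abs_of_nonneg (by positivity)]
    rw [norm_mul, h2, cc_one, mul_pow]
    have h3 : ((j : ℝ) + 1) ^ 2 * ‖u j‖ ^ 2 * (Real.pi / (((j : ℝ) + 1) * (j + 2))) =
        Real.pi * ‖u j‖ ^ 2 * (((j : ℝ) + 1) / (j + 2)) := by
      field_simp
    rw [h3]
    have h4 : ((j : ℝ) + 1) / (j + 2) ≤ 1 := by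
      rw [div_le_one (by positivity)]
      linarith
    have h5 : 0 ≤ Real.pi * ‖u j‖ ^ 2 := by positivity
    nlinarith
  refine (Finset.sum_le_sum h1).trans ?_
  rw [← Finset.mul_sum]
  have : ∑ j ∈ Finset.range M, ‖u j‖ ^ 2 ≤ 1 := hu
  nlinarith [Real.pi_pos]

lemma pd_meas (M : ℕ) (u : ℕ → ℂ) : Measurable (pd M u) := poly_meas M (fun j => ((j : ℂ) + 1) * u j)

lemma pd_bdd (M : ℕ) (u : ℕ → ℂ) : ∀ w ∈ Metric.ball (0 : ℂ) 1,
    ‖pd M u w‖ ≤ ∑ j ∈ Finset.range M, ‖((j : ℂ) + 1) * u j‖ :=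
  poly_bdd M (fun j => ((j : ℂ) + 1) * u j)

lemma real_int {f : ℂ → ℝ} (hf : Measurable f) (C : ℝ)
    (h : ∀ w ∈ Metric.ball (0 : ℂ) 1, ‖f w‖ ≤ C) : IntegrableOn f (Metric.ball (0 : ℂ) 1) := by
  refine Measure.integrableOn_of_bounded (M := C) measure_ball_lt_top.ne hf.aestronglyMeasurable ?_
  rw [ae_restrict_iff' Metric.isOpen_ball.measurableSet]
  exact Eventually.of_forall h

lemma pair_int (M : ℕ) {u v : ℕ → ℂ} (hu : En M u ≤ 1) (hv : En M v ≤ 1) :
    IntegrableOn (fun w => ‖pd M u w‖ * ‖pd M v w‖ * (1 - Complex.normSq w)) (Metric.ball (0 : ℂ) 1) ∧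
    ∫ w in Metric.ball (0 : ℂ) 1, ‖pd M u w‖ * ‖pd M v w‖ * (1 - Complex.normSq w) ≤ Real.pi := by
  have hnm := nsq_meas
  set A := ∑ j ∈ Finset.range M, ‖((j : ℂ) + 1) * u j‖ with hA
  set B := ∑ j ∈ Finset.range M, ‖((j : ℂ) + 1) * v j‖ with hB
  have hA0 : 0 ≤ A := Finset.sum_nonneg fun _ _ => norm_nonneg _
  have hB0 : 0 ≤ B := Finset.sum_nonneg fun _ _ => norm_nonneg _
  have h1 : IntegrableOn (fun w => ‖pd M u w‖ * ‖pd M v w‖ * (1 - Complex.normSq w))
      (Metric.ball (0 : ℂ) 1) := by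
    refine real_int (((pd_meas M u).norm.mul (pd_meas M v).norm).mul (measurable_const.sub hnm))
      (A * B) fun w hw => ?_
    have h := one_sub_le hw
    rw [Real.norm_eq_abs, abs_of_nonneg (mul_nonneg (by positivity) h.1)]
    calc _ ≤ ‖pd M u w‖ * ‖pd M v w‖ * 1 := mul_le_mul_of_nonneg_left h.2 (by positivity)
      _ ≤ A * B := by
        rw [mul_one]
        exact mul_le_mul (pd_bdd M u w hw) (pd_bdd M v w hw) (norm_nonneg _) hA0
  have hsq : ∀ (u : ℕ → ℂ), IntegrableOn (fun w => ‖pd M u w‖ ^ 2 * (1 - Complex.normSq w))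
      (Metric.ball (0 : ℂ) 1) := by
    intro u
    refine real_int (((pd_meas M u).norm.pow_const 2).mul (measurable_const.sub hnm))
      ((∑ j ∈ Finset.range M, ‖((j : ℂ) + 1) * u j‖) ^ 2) fun w hw => ?_
    have h := one_sub_le hw
    rw [Real.norm_eq_abs, abs_of_nonneg (mul_nonneg (by positivity) h.1)]
    calc _ ≤ ‖pd M u w‖ ^ 2 * 1 := mul_le_mul_of_nonneg_left h.2 (by positivity)
      _ ≤ _ := by
        rw [mul_one]
        exact pow_le_pow_left₀ (norm_nonneg _) (pd_bdd M u w hw) 2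
  refine ⟨h1, ?_⟩
  have h2 : ∫ w in Metric.ball (0 : ℂ) 1, ‖pd M u w‖ * ‖pd M v w‖ * (1 - Complex.normSq w) ≤
      ∫ w in Metric.ball (0 : ℂ) 1, (1 / 2 * (‖pd M u w‖ ^ 2 * (1 - Complex.normSq w)) +
        1 / 2 * (‖pd M v w‖ ^ 2 * (1 - Complex.normSq w))) := by
    refine setIntegral_mono_on h1 (((hsq u).const_mul _).add ((hsq v).const_mul _))
      Metric.isOpen_ball.measurableSet fun w hw => ?_
    have h := one_sub_le hw
    nlinarith [mul_nonneg (sq_nonneg (‖pd M u w‖ - ‖pd M v w‖)) h.1]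
  rw [integral_add ((hsq u).const_mul _) ((hsq v).const_mul _), integral_const_mul,
    integral_const_mul] at h2
  have h3 := pd_sq M u hu
  have h4 := pd_sq M v hv
  linarith

/-- coefficients of the product of the two polynomials -/
noncomputable def gc (n M : ℕ) (U V : Fin n → ℕ → ℂ) (r : ℕ) : ℂ :=
  (3 / (Real.pi : ℂ)) * ∑ q ∈ Finset.HasAntidiagonal.antidiagonal r, if q.1 < M ∧ q.2 < M then
    ((q.1 : ℂ) + 1) * (q.2 + 1) * ∑ i, U i q.1 * V i q.2 else 0

lemma gc_prod (n M : ℕ) (U V : Fin n → ℕ → ℂ) (w : ℂ) :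
    ∑ r ∈ Finset.range (2 * M), gc n M U V r * w ^ r =
      (3 / (Real.pi : ℂ)) * ∑ i, pd M (U i) w * pd M (V i) w := by
  have h1 : ∀ r, gc n M U V r * w ^ r = (3 / (Real.pi : ℂ)) *
      ∑ q ∈ Finset.HasAntidiagonal.antidiagonal r, if q.1 < M ∧ q.2 < M then
        ((q.1 : ℂ) + 1) * (q.2 + 1) * (∑ i, U i q.1 * V i q.2) * w ^ q.1 * w ^ q.2 else 0 := by
    intro r
    unfold gc
    rw [mul_assoc, Finset.sum_mul]
    congr 1
    refine Finset.sum_congr rfl fun q hq => ?_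
    rw [Finset.HasAntidiagonal.mem_antidiagonal] at hq
    split_ifs
    · rw [← hq, pow_add]; ring
    · rw [zero_mul]
  rw [Finset.sum_congr rfl fun r _ => h1 r, ← Finset.mul_sum]
  congr 1
  have h2 : ∑ i, pd M (U i) w * pd M (V i) w = ∑ q ∈ Finset.range M ×ˢ Finset.range M,
      ((q.1 : ℂ) + 1) * (q.2 + 1) * (∑ i, U i q.1 * V i q.2) * w ^ q.1 * w ^ q.2 := by
    have h3 : ∀ i, pd M (U i) w * pd M (V i) w = ∑ q ∈ Finset.range M ×ˢ Finset.range M,
        ((q.1 : ℂ) + 1) * (q.2 + 1) * (U i q.1 * V i q.2) * w ^ q.1 * w ^ q.2 := by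
      intro i
      unfold pd
      rw [Finset.sum_mul_sum, ← Finset.sum_product']
      exact Finset.sum_congr rfl fun q _ => by ring
    rw [Finset.sum_congr rfl fun i _ => h3 i, Finset.sum_comm]
    refine Finset.sum_congr rfl fun q _ => ?_
    rw [Finset.mul_sum, Finset.sum_mul, Finset.sum_mul]
  rw [h2, Finset.sum_sigma']
  symm
  refine Finset.sum_bij_ne_zero (fun q _ _ => (⟨q.1 + q.2, q⟩ : (_ : ℕ) × (ℕ × ℕ))) ?_ ?_ ?_ ?_
  · intro q hq _
    rw [Finset.mem_product, Finset.mem_range, Finset.mem_range] at hq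
    rw [Finset.mem_sigma, Finset.mem_range, Finset.HasAntidiagonal.mem_antidiagonal]
    refine ⟨?_, rfl⟩
    show q.1 + q.2 < 2 * M
    omega
  · intro q _ _ q' _ _ h
    simp only [Sigma.mk.injEq] at h
    exact eq_of_heq h.2
  · rintro ⟨r, q⟩ hq hne
    rw [Finset.mem_sigma, Finset.mem_range, Finset.HasAntidiagonal.mem_antidiagonal] at hq
    have hq1 : q.1 < M ∧ q.2 < M := by
      by_contra hcon
      exact hne (if_neg hcon)
    simp only [if_pos hq1] at hne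
    refine ⟨q, ?_, hne, ?_⟩
    · rw [Finset.mem_product, Finset.mem_range, Finset.mem_range]
      exact hq1
    · have : q.1 + q.2 = r := hq.2
      subst this
      rfl
  · intro q hq _
    rw [Finset.mem_product, Finset.mem_range, Finset.mem_range] at hq
    simp only
    rw [if_pos hq]

lemma wt_bound (n M : ℕ) (U V : Fin n → ℕ → ℂ) (hU : ∀ i, En M (U i) ≤ 1)
    (hV : ∀ i, En M (V i) ≤ 1) : ∫ w in Metric.ball (0 : ℂ) 1,
      wt 1 (fun w => ∑ r ∈ Finset.range (2 * M), gc n M U V r * w ^ r) w ≤ 3 * n := by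
  have hint := wt_int 1 (poly_meas (2 * M) (gc n M U V)) (poly_bdd (2 * M) (gc n M U V))
  have h1 : ∫ w in Metric.ball (0 : ℂ) 1,
      wt 1 (fun w => ∑ r ∈ Finset.range (2 * M), gc n M U V r * w ^ r) w ≤
      ∫ w in Metric.ball (0 : ℂ) 1, (3 / Real.pi) * ∑ i, ‖pd M (U i) w‖ * ‖pd M (V i) w‖ *
        (1 - Complex.normSq w) := by
    refine setIntegral_mono_on hint ((integrable_finsetSum _ fun i _ =>
      (pair_int M (hU i) (hV i)).1).const_mul _) Metric.isOpen_ball.measurableSet fun w hw => ?_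
    have h := one_sub_le hw
    unfold wt
    simp only
    rw [gc_prod, norm_mul, pow_one]
    have h3 : ‖(3 / (Real.pi : ℂ))‖ = 3 / Real.pi := by
      rw [norm_div, Complex.norm_real, Real.norm_eq_abs, abs_of_pos Real.pi_pos]
      norm_num
    rw [h3, mul_assoc]
    refine mul_le_mul_of_nonneg_left ?_ (by positivity)
    rw [← Finset.sum_mul]
    refine mul_le_mul_of_nonneg_right ?_ h.1
    refine (norm_sum_le _ _).trans (le_of_eq ?_)
    exact Finset.sum_congr rfl fun i _ => norm_mul _ _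
  refine h1.trans ?_
  rw [integral_const_mul, integral_finsetSum _ fun i _ => (pair_int M (hU i) (hV i)).1]
  have h2 : ∑ i : Fin n, ∫ w in Metric.ball (0 : ℂ) 1, ‖pd M (U i) w‖ * ‖pd M (V i) w‖ *
        (1 - Complex.normSq w) ≤ ∑ _i : Fin n, Real.pi :=
    Finset.sum_le_sum fun i _ => (pair_int M (hU i) (hV i)).2
  rw [Finset.sum_const, Finset.card_univ, Fintype.card_fin, nsmul_eq_mul] at h2
  calc 3 / Real.pi * _ ≤ 3 / Real.pi * (n * Real.pi) := mul_le_mul_of_nonneg_left h2 (by positivity)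
    _ = 3 * n := by field_simp

/-- the number `∑_{j + k = r; j, k < M} (j + 1) (k + 1)` -/
noncomputable def kap (M r : ℕ) : ℝ := ∑ q ∈ Finset.HasAntidiagonal.antidiagonal r, if q.1 < M ∧ q.2 < M then
    ((q.1 : ℝ) + 1) * (q.2 + 1) else 0

lemma tetra (r : ℕ) : ∑ q ∈ Finset.HasAntidiagonal.antidiagonal r, ((q.1 : ℝ) + 1) * (q.2 + 1) =
    ((r : ℝ) + 1) * (r + 2) * (r + 3) / 6 := by
  rw [Finset.Nat.sum_antidiagonal_eq_sum_range_succ (fun i j => ((i : ℝ) + 1) * (j + 1))]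
  have h : ∀ (r m : ℕ), m ≤ r + 1 → ∑ k ∈ Finset.range m, ((k : ℝ) + 1) * (((r - k : ℕ) : ℝ) + 1) =
      (m : ℝ) * (m + 1) * (3 * r + 5 - 2 * m) / 6 := by
    intro r m
    induction m with
    | zero => simp
    | succ m ih =>
      intro hm
      rw [Finset.sum_range_succ, ih (by omega), Nat.cast_sub (by omega)]
      push_cast
      ring
  rw [h r (r + 1) le_rfl]
  push_cast
  ring

lemma kap_nonneg (M r : ℕ) : 0 ≤ kap M r :=
  Finset.sum_nonneg fun q _ => by split_ifs <;> positivity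

lemma kap_le (M r : ℕ) : kap M r ≤ ((r : ℝ) + 1) * (r + 2) * (r + 3) / 6 := by
  rw [← tetra]
  refine Finset.sum_le_sum fun q _ => ?_
  split_ifs
  · exact le_rfl
  · positivity

lemma kap_eq {M r : ℕ} (h : r < M) : kap M r = ((r : ℝ) + 1) * (r + 2) * (r + 3) / 6 := by
  rw [← tetra]
  refine Finset.sum_congr rfl fun q hq => ?_
  rw [Finset.HasAntidiagonal.mem_antidiagonal] at hq
  rw [if_pos ⟨by omega, by omega⟩]

/-- the ratio -/
noncomputable def ta (M r : ℕ) : ℝ := kap M r / (((r : ℝ) + 1) * (r + 2) * (r + 3) / 6)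

lemma ta_nonneg (M r : ℕ) : 0 ≤ ta M r := div_nonneg (kap_nonneg M r) (by positivity)

lemma ta_le (M r : ℕ) : ta M r ≤ 1 := by
  unfold ta
  rw [div_le_one (by positivity)]
  exact kap_le M r

lemma ta_eq {M r : ℕ} (h : r < M) : ta M r = 1 := by
  unfold ta
  rw [kap_eq h]
  exact div_self (by positivity)

lemma gc_val (n M : ℕ) (U V : Fin n → ℕ → ℂ) (b : ℕ → ℂ)
    (hb : ∀ j k, b (j + k + 1) = ∑ i, U i j * V i k) (r : ℕ) :
    gc n M U V r * (cc 2 r : ℂ) = (ta M r : ℂ) * b (r + 1) := by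
  have h1 : gc n M U V r = (3 / (Real.pi : ℂ)) * ((kap M r : ℂ) * b (r + 1)) := by
    unfold gc kap
    rw [Complex.ofReal_sum, Finset.sum_mul]
    congr 1
    refine Finset.sum_congr rfl fun q hq => ?_
    rw [Finset.HasAntidiagonal.mem_antidiagonal] at hq
    rw [← hb q.1 q.2, hq]
    split_ifs
    · push_cast; ring
    · push_cast; ring
  rw [h1, cc_two]
  unfold ta
  have hpi : (Real.pi : ℂ) ≠ 0 := by exact_mod_cast Real.pi_ne_zero
  have hk : (((r : ℝ) + 1 : ℝ) : ℂ) ≠ 0 ∧ (((r : ℝ) + 2 : ℝ) : ℂ) ≠ 0 ∧ (((r : ℝ) + 3 : ℝ) : ℂ) ≠ 0 := by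
    refine ⟨?_, ?_, ?_⟩ <;> (rw [Ne, Complex.ofReal_eq_zero]; positivity)
  obtain ⟨h3, h4, h5⟩ := hk
  push_cast at h3 h4 h5 ⊢
  field_simp
  ring

end Pool.Agent.X125.BT
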