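import Pool.Agent.X125.BT.E

set_option autoImplicit false

/-!
# Products of Beurling transforms: the bound (helper125)
-/

open MeasureTheory Filter Topology Set
open scoped SchwartzMap ENNReal NNReal

namespace Pool.Agent.X125.BT

open Pool.Agent.TH55.PowA

lemma cc_ne (s j : ℕ) : (cc s j : ℂ) ≠ 0 := by
  have h : 0 < cc s j := by
    unfold cc
    refine mul_pos Real.pi_pos (intervalIntegral.intervalIntegral_pos_of_pos_on ?_ ?_ one_pos)
    · exact (by fun_prop : Continuous fun t : ℝ => t ^ j * (1 - t) ^ s).intervalIntegrable _ _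
    · intro t ht
      have h1 : 0 < t := ht.1
      have h2 : 0 < 1 - t := by linarith [ht.2]
      positivity
  exact_mod_cast h.ne'

lemma T_poly (d : ℕ) (a : ℕ → ℂ) (f : 𝓢(ℂ, ℂ)) :
    T (fun ξ => ∑ k ∈ Finset.range d, a k * bs ξ ^ k) f =
      fun z => ∑ k ∈ Finset.range d, a k * T (fun ξ => bs ξ ^ k) f z := by
  funext z
  exact T_sum (Finset.range d) a (fun j ξ => bs ξ ^ j)
    (fun j _ => Pool.Agent.Y338.BP.adm_pow j) f z

lemma T_poly_cont (d : ℕ) (a : ℕ → ℂ) (f : 𝓢(ℂ, ℂ)) :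
    Continuous (T (fun ξ => ∑ k ∈ Finset.range d, a k * bs ξ ^ k) f) := by
  rw [T_poly]
  exact continuous_finsetSum _ fun j _ => continuous_const.mul
    (T_cont (Pool.Agent.Y338.BP.adm_pow j) f)

lemma coreT (s : ℕ) {p : ℝ} (hp : 2 ≤ p) (d : ℕ) (a : ℕ → ℂ) (f : 𝓢(ℂ, ℂ)) :
    eLpNorm (T (fun ξ => ∑ k ∈ Finset.range (d + 1), a k * bs ξ ^ k) f) (ENNReal.ofReal p) volume
      ≤ ENNReal.ofReal (‖a 0‖ + (p - 1) * ∫ w in Metric.ball (0 : ℂ) 1,
          wt s (fun w => ∑ k ∈ Finset.range d, (a (k + 1) / (cc (s + 1) k : ℂ)) * w ^ k) w) *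
        eLpNorm f (ENNReal.ofReal p) volume := by
  have hcc := cc_ne (s + 1)
  have h1 : T (fun ξ => ∑ k ∈ Finset.range (d + 1), a k * bs ξ ^ k) f =
      fun z => T (fun ξ => ∑ j ∈ Finset.range d, (a (j + 1) / (cc (s + 1) j : ℂ)) *
        (cc (s + 1) j : ℂ) * bs ξ ^ (j + 1)) f z + a 0 * f z := by
    rw [T_poly]
    funext z
    rw [Finset.sum_range_succ' (fun k => a k * T (fun ξ => bs ξ ^ k) f z)]
    have h2 : T (fun ξ => ∑ j ∈ Finset.range d, (a (j + 1) / (cc (s + 1) j : ℂ)) *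
        (cc (s + 1) j : ℂ) * bs ξ ^ (j + 1)) f z =
        T (fun ξ => ∑ j ∈ Finset.range d, a (j + 1) * bs ξ ^ (j + 1)) f z := by
      refine T_congr (fun ξ _ => Finset.sum_congr rfl fun j _ => ?_) f z
      rw [div_mul_cancel₀ _ (hcc j)]
    rw [h2, T_sum (Finset.range d) (fun j => a (j + 1)) (fun j ξ => bs ξ ^ (j + 1))
      (fun j _ => Pool.Agent.Y338.BP.adm_pow (j + 1)) f z]
    congr 1
    rw [Pool.Agent.Y338.BP.T_zero f z]
  have hP : (1 : ENNReal) ≤ ENNReal.ofReal p := by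
    rw [← ENNReal.ofReal_one]
    exact ENNReal.ofReal_le_ofReal (by linarith)
  have hb := poly_bound hp s d (fun k => a (k + 1) / (cc (s + 1) k : ℂ)) f
  set I := ∫ w in Metric.ball (0 : ℂ) 1,
          wt s (fun w => ∑ k ∈ Finset.range d, (a (k + 1) / (cc (s + 1) k : ℂ)) * w ^ k) w with hI
  have hI0 : 0 ≤ I := by
    refine setIntegral_nonneg Metric.isOpen_ball.measurableSet fun w hw => ?_
    exact wt_nonneg s _ hw
  have hm : AEStronglyMeasurable (T (fun ξ => ∑ j ∈ Finset.range d,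
      (a (j + 1) / (cc (s + 1) j : ℂ)) * (cc (s + 1) j : ℂ) * bs ξ ^ (j + 1)) f) volume := by
    have h3 : T (fun ξ => ∑ j ∈ Finset.range d, (a (j + 1) / (cc (s + 1) j : ℂ)) *
        (cc (s + 1) j : ℂ) * bs ξ ^ (j + 1)) f = fun z => ∑ j ∈ Finset.range d,
          ((a (j + 1) / (cc (s + 1) j : ℂ)) * (cc (s + 1) j : ℂ)) * T (fun ξ => bs ξ ^ (j + 1)) f z := by
      funext z
      exact T_sum (Finset.range d) _ (fun j ξ => bs ξ ^ (j + 1))
        (fun j _ => Pool.Agent.Y338.BP.adm_pow (j + 1)) f z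
    rw [h3]
    exact (continuous_finsetSum _ fun j _ => continuous_const.mul
      (T_cont (Pool.Agent.Y338.BP.adm_pow (j + 1)) f)).aestronglyMeasurable
  rw [h1]
  refine (eLpNorm_add_le hm (f.continuous.aestronglyMeasurable.const_mul _) hP).trans ?_
  have h4 : eLpNorm (fun z => a 0 * f z) (ENNReal.ofReal p) volume =
      ENNReal.ofReal ‖a 0‖ * eLpNorm f (ENNReal.ofReal p) volume := by
    have := eLpNorm_const_smul (a 0) (f : ℂ → ℂ) (ENNReal.ofReal p) (volume : Measure ℂ)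
    rw [← ofReal_norm] at this
    exact this
  rw [h4, ENNReal.ofReal_add (norm_nonneg _) (mul_nonneg (by linarith) hI0), add_mul, add_comm]
  gcongr
  refine hb.trans (le_of_eq ?_)
  rw [← mul_assoc, ENNReal.ofReal_mul (by linarith), mul_comm (ENNReal.ofReal I)]

/-- the truncated coefficients -/
noncomputable def tb (M : ℕ) (b : ℕ → ℂ) : ℕ → ℂ
  | 0 => b 0
  | k + 1 => (ta M k : ℂ) * b (k + 1)

lemma tb_tendsto {b : ℕ → ℂ} (hb : Summable fun k => ‖b k‖) {z : ℂ} (hz : ‖z‖ ≤ 1) :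
    Tendsto (fun M : ℕ => ∑ k ∈ Finset.range (2 * M + 1), tb M b k * z ^ k) atTop
      (𝓝 (val b z)) := by
  have h1 : ∀ M : ℕ, ∑ k ∈ Finset.range (2 * M + 1), tb M b k * z ^ k =
      ∑' k, (if k < 2 * M + 1 then tb M b k * z ^ k else 0) := by
    intro M
    rw [tsum_eq_sum (s := Finset.range (2 * M + 1))]
    · refine Finset.sum_congr rfl fun k hk => ?_
      rw [if_pos (Finset.mem_range.1 hk)]
    · intro k hk
      rw [if_neg (fun h => hk (Finset.mem_range.2 h))]
  simp only [h1]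
  unfold val
  refine tendsto_tsum_of_dominated_convergence hb ?_ ?_
  · intro k
    refine tendsto_const_nhds.congr' ?_
    filter_upwards [eventually_gt_atTop k] with M hM
    rw [if_pos (by omega)]
    cases k with
    | zero => rfl
    | succ k =>
      show b (k + 1) * z ^ (k + 1) = (ta M k : ℂ) * b (k + 1) * z ^ (k + 1)
      rw [ta_eq (by omega)]
      push_cast
      ring
  · refine Eventually.of_forall fun M k => ?_
    have h2 : ‖tb M b k‖ ≤ ‖b k‖ := by
      cases k with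
      | zero => exact le_rfl
      | succ k =>
        show ‖(ta M k : ℂ) * b (k + 1)‖ ≤ _
        rw [norm_mul, Complex.norm_real, Real.norm_eq_abs, abs_of_nonneg (ta_nonneg M k)]
        have := ta_le M k
        nlinarith [norm_nonneg (b (k + 1))]
    split_ifs
    · rw [norm_mul, norm_pow]
      have := pow_le_one₀ (n := k) (norm_nonneg z) hz
      nlinarith [norm_nonneg (tb M b k), norm_nonneg (b k)]
    · rw [norm_zero]; exact norm_nonneg _

lemma tb_bound {b : ℕ → ℂ} (hb : Summable fun k => ‖b k‖) {z : ℂ} (hz : ‖z‖ ≤ 1) (M : ℕ) :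
    ‖∑ k ∈ Finset.range (2 * M + 1), tb M b k * z ^ k‖ ≤ ∑' k, ‖b k‖ := by
  refine (norm_sum_le _ _).trans ?_
  refine le_trans (Finset.sum_le_sum fun k _ => ?_) (hb.sum_le_tsum (Finset.range (2 * M + 1))
    fun _ _ => norm_nonneg _)
  have h2 : ‖tb M b k‖ ≤ ‖b k‖ := by
    cases k with
    | zero => exact le_rfl
    | succ k =>
      show ‖(ta M k : ℂ) * b (k + 1)‖ ≤ _
      rw [norm_mul, Complex.norm_real, Real.norm_eq_abs, abs_of_nonneg (ta_nonneg M k)]
      have := ta_le M k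
      nlinarith [norm_nonneg (b (k + 1))]
  rw [norm_mul, norm_pow]
  have := pow_le_one₀ (n := k) (norm_nonneg z) hz
  nlinarith [norm_nonneg (tb M b k), norm_nonneg (b k)]

/-- **products of `n` Beurling transforms** -/
theorem blaschke_bound {p : ℝ} (hp : 2 ≤ p) (l : List ℂ) (hl : ∀ w ∈ l, ‖w‖ < 1) (f : 𝓢(ℂ, ℂ)) :
    eLpNorm (T (fun ξ => (l.map fun w => mb w (bs ξ)).prod) f) (ENNReal.ofReal p) volume
      ≤ ENNReal.ofReal (‖(l.map fun w => -w).prod‖ + 3 * l.length * (p - 1)) *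
        eLpNorm f (ENNReal.ofReal p) volume := by
  obtain ⟨U, V, hU, hV, hH⟩ := hankel l hl
  have hs := Bl_summable hl
  have hval : ∀ ξ, val (Bl l) (bs ξ) = (l.map fun w => mb w (bs ξ)).prod := fun ξ =>
    Bl_val hl (bs_norm_le ξ) fun w hw => den_ne (hl w hw) (bs_norm_le ξ)
  have hP : (1 : ENNReal) ≤ ENNReal.ofReal p := by
    rw [← ENNReal.ofReal_one]
    exact ENNReal.ofReal_le_ofReal (by linarith)
  refine Lp.eLpNorm_le_of_ae_tendsto (u := atTop)
    (f := fun M : ℕ => T (fun ξ => ∑ k ∈ Finset.range (2 * M + 1), tb M (Bl l) k * bs ξ ^ k) f)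
    (Eventually.of_forall fun M => ?_)
    (fun M => (T_poly_cont _ _ f).aestronglyMeasurable) (Eventually.of_forall fun z => ?_)
  · refine (coreT 1 hp (2 * M) (tb M (Bl l)) f).trans ?_
    have h1 : ∀ k, tb M (Bl l) (k + 1) / (cc (1 + 1) k : ℂ) = gc l.length M U V k := by
      intro k
      rw [div_eq_iff (cc_ne (1 + 1) k), show 1 + 1 = 2 from rfl, gc_val _ M U V (Bl l) hH k]
      rfl
    simp only [h1]
    have h2 := wt_bound l.length M U V (fun i => hU i M) (fun i => hV i M)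
    refine mul_le_mul' (ENNReal.ofReal_le_ofReal ?_) le_rfl
    have h3 : ‖tb M (Bl l) 0‖ = ‖(l.map fun w => -w).prod‖ := by
      show ‖Bl l 0‖ = _
      rw [Bl_zero]
    rw [h3]
    have h4 : 0 ≤ p - 1 := by linarith
    nlinarith
  · unfold T
    refine tendsto_integral_of_dominated_convergence
      (fun ξ => (∑' k, ‖Bl l k‖) * ‖Ft f ξ‖) (fun M => ?_) ((Ft_int f).norm.const_mul _)
      (fun M => Eventually.of_forall fun ξ => ?_) (Eventually.of_forall fun ξ => ?_)
    · refine (meas_ex z).aestronglyMeasurable.mul (AEStronglyMeasurable.mul ?_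
        (Ft_int f).aestronglyMeasurable)
      exact (Finset.measurable_fun_sum _ fun k _ =>
        (measurable_const.mul (bs_meas.pow_const k))).aestronglyMeasurable
    · rw [norm_mul, norm_ex, one_mul, norm_mul]
      exact mul_le_mul_of_nonneg_right (tb_bound hs (bs_norm_le ξ) M) (norm_nonneg _)
    · have h := ((tb_tendsto hs (bs_norm_le ξ)).mul_const (Ft f ξ)).const_mul
        (Complex.exp (2 * (Real.pi : ℂ) * Complex.I * ((sm z ξ : ℝ) : ℂ)))
      rw [hval ξ] at h
      exact h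

end Pool.Agent.X125.BT
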